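import Pool.Agent.K4H25.HY.H9

/-!
The criterion for open curves, at the places of a curve.
-/

set_option autoImplicit false
set_option linter.overlappingInstances false
set_option linter.unusedSectionVars false
set_option linter.unusedVariables false
set_option maxHeartbeats 4000000
set_option synthInstance.maxHeartbeats 400000

open Polynomial FF IntermediateField Pool.Agent.TH466.QG Pool.Agent.W619.PQ Pool.Agent.W619.PL
  Pool.Agent.W619.TW Pool.Agent.W603.LV Pool.Agent.K4H25.GQ Pool.Agent.K4H25.GW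
  Pool.Agent.K4H25.HY

namespace Pool.Agent.K4H25.LG

section

variable {k : Type} [Field k] {M : Type} [Field M] [Algebra k M] {n : ℕ}

/-- The criterion at the fixed points in the complement of the fibres at infinity. -/
def LAge (C : Fin n → IntermediateField k M) (G : Subgroup (M ≃ₐ[k] M))
    (B : ∀ i, Finset (Place k ↥(C i ⊓ fixedField G))) (α : Fin n → ℚ)
    (δ : ∀ i, Place k ↥(C i ⊓ fixedField G) → ℚ) : Prop :=
  ∀ g ∈ G, ∀ ζ : k, IsPrimitiveRoot ζ (orderOf g) →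
    ∀ (w : ∀ i, Place k (C i)) (p : ∀ i, Place k ↥(C i ⊓ fixedField G)) (r c : Fin n → ℕ),
      (∀ i, LiesOver (inf_le_left : C i ⊓ fixedField G ≤ C i) (w i) (p i) (r i)) →
      (∀ i, p i ∉ B i) →
      (∀ i, 0 < c i) → (∀ i, Rotates (C i) g (w i) (ζ ^ c i)) →
      (∑ i, α i) * orderOf g ≤ ∑ i, α i * (r i * (1 - δ i (p i)) * c i)

/-- The criterion for some of the curves. -/
theorem LAge.sub {C : Fin n → IntermediateField k M} {G : Subgroup (M ≃ₐ[k] M)}
    {B : ∀ i, Finset (Place k ↥(C i ⊓ fixedField G))}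
    {α : Fin n → ℚ} {δ : ∀ i, Place k ↥(C i ⊓ fixedField G) → ℚ} (h : LAge C G B α δ)
    (hgen : ∀ i, ∃ w p, LiesOver (inf_le_left : C i ⊓ fixedField G ≤ C i) w p 1 ∧ δ i p = 0 ∧
      p ∉ B i)
    {g : M ≃ₐ[k] M} (hg : g ∈ G) (I : Finset (Fin n)) (htriv : ∀ i ∉ I, ∀ z ∈ C i, g z = z)
    {ζ : k} (hζ : IsPrimitiveRoot ζ (orderOf g)) (ho : 0 < orderOf g)
    (w : ∀ i : I, Place k (C i)) (p : ∀ i : I, Place k ↥(C i ⊓ fixedField G)) (r c : I → ℕ)
    (hp : ∀ i : I, LiesOver (inf_le_left : C i ⊓ fixedField G ≤ C i) (w i) (p i) (r i))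
    (hB : ∀ i : I, p i ∉ B i)
    (hc : ∀ i, 0 < c i) (hrot : ∀ i : I, Rotates (C i) g (w i) (ζ ^ c i)) :
    (∑ i ∈ I, α i) * orderOf g ≤ ∑ i : I, α i * (r i * (1 - δ i (p i)) * c i) := by
  classical
  choose w0 p0 hw0 hδ0 hB0 using hgen
  obtain ⟨W, hW1, hW2⟩ : ∃ W : ∀ i, Place k (C i), (∀ i : I, W i = w i) ∧ ∀ i ∉ I, W i = w0 i :=
    ⟨fun i => if hi : i ∈ I then w ⟨i, hi⟩ else w0 i, fun i => by simp,
      fun i hi => by simp [hi]⟩
  obtain ⟨P, hP1, hP2⟩ : ∃ P : ∀ i, Place k ↥(C i ⊓ fixedField G), (∀ i : I, P i = p i) ∧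
      ∀ i ∉ I, P i = p0 i :=
    ⟨fun i => if hi : i ∈ I then p ⟨i, hi⟩ else p0 i, fun i => by simp,
      fun i hi => by simp [hi]⟩
  obtain ⟨R, hR1, hR2⟩ : ∃ R : Fin n → ℕ, (∀ i : I, R i = r i) ∧ ∀ i ∉ I, R i = 1 :=
    ⟨fun i => if hi : i ∈ I then r ⟨i, hi⟩ else 1, fun i => by simp, fun i hi => by simp [hi]⟩
  obtain ⟨c', hc1, hc2⟩ : ∃ c' : Fin n → ℕ, (∀ i : I, c' i = c i) ∧ ∀ i ∉ I, c' i = orderOf g :=
    ⟨fun i => if hi : i ∈ I then c ⟨i, hi⟩ else orderOf g, fun i => by simp,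
      fun i hi => by simp [hi]⟩
  have h1 := h g hg ζ hζ W P R c' (fun i => by
      by_cases hi : i ∈ I
      · have := hp ⟨i, hi⟩
        rw [← hW1, ← hP1, ← hR1] at this
        exact this
      · rw [hW2 i hi, hP2 i hi, hR2 i hi]
        exact hw0 i) (fun i => by
      by_cases hi : i ∈ I
      · have := hB ⟨i, hi⟩
        rw [← hP1] at this
        exact this
      · rw [hP2 i hi]
        exact hB0 i) (fun i => by
      by_cases hi : i ∈ I
      · have := hc ⟨i, hi⟩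
        rw [← hc1] at this
        exact this
      · rw [hc2 i hi]
        exact ho) (fun i => by
      by_cases hi : i ∈ I
      · have := hrot ⟨i, hi⟩
        rw [← hW1, ← hc1] at this
        exact this
      · intro t z _ hz
        left
        rw [hc2 i hi, hζ.pow_eq_one, map_one, one_mul, sub_eq_zero]
        apply Subtype.ext
        rw [← hz, htriv i hi t t.2])
  rw [← Finset.sum_add_sum_compl I, ← Finset.sum_add_sum_compl I] at h1
  have h2 : ∑ i ∈ Iᶜ, α i * ((R i : ℚ) * (1 - δ i (P i)) * c' i) =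
      (∑ i ∈ Iᶜ, α i) * orderOf g := by
    rw [Finset.sum_mul]
    refine Finset.sum_congr rfl fun i hi => ?_
    have hi' := Finset.mem_compl.1 hi
    rw [hR2 i hi', hP2 i hi', hc2 i hi', hδ0]
    norm_num
  have h4 : ∑ i ∈ I, α i * ((R i : ℚ) * (1 - δ i (P i)) * c' i) =
      ∑ i : I, α i * (r i * (1 - δ i (p i)) * c i) := by
    rw [← Finset.sum_coe_sort]
    refine Finset.sum_congr rfl fun i _ => ?_
    rw [hR1, hP1, hc1]
  rw [h2, h4] at h1
  linarith

end

section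

variable {k : Type} [Field k] [CharZero k] [IsAlgClosed k] {N : Type} [Field N] [Algebra k N]

variable {M : Type} [Field M] [Algebra k M] {n : ℕ}

/-- **The criterion at a place of a curve.** -/
theorem local_ineq (Γ : Subgroup (N ≃ₐ[k] N)) [Finite Γ]
    {C : Fin n → IntermediateField k M} {G : Subgroup (M ≃ₐ[k] M)} [Finite G]
    {B : ∀ i, Finset (Place k ↥(C i ⊓ fixedField G))}
    {α : Fin n → ℚ} {δ : ∀ i, Place k ↥(C i ⊓ fixedField G) → ℚ} (h : LAge C G B α δ)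
    (hgen : ∀ i, ∃ w p, LiesOver (inf_le_left : C i ⊓ fixedField G ≤ C i) w p 1 ∧ δ i p = 0 ∧
      p ∉ B i)
    (I : Finset (Fin n)) (ι : ∀ i : I, C i →ₐ[k] N)
    (hst : ∀ g ∈ G, ∀ i, ∀ z ∈ C i, g z ∈ C i)
    {w : Place k N} {v : Place k (fixedField Γ)} {e : ℕ} (hv : Over w v e)
    (hσ : ∀ σ ∈ Γ, Inert w σ → ∃ g ∈ G, (∀ i ∉ I, ∀ z ∈ C i, g z = z) ∧
      (∀ (i : I) (z z' : C i), (z' : M) = g z → ι i z' = σ (ι i z)) ∧ orderOf g ∣ orderOf σ)
    (ww : ∀ i : I, Place k (C i)) (f : I → ℕ) (hf : ∀ i, OverH (ι i) w (ww i) (f i))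
    (p : ∀ i : I, Place k ↥(C i ⊓ fixedField G)) (r : I → ℕ)
    (hp : ∀ i : I, LiesOver (inf_le_left : C i ⊓ fixedField G ≤ C i) (ww i) (p i) (r i))
    (hB : ∀ i : I, p i ∉ B i) :
    (∑ i ∈ I, α i) * e ≤ ∑ i : I, α i * (r i * (1 - δ i (p i)) * f i) := by
  classical
  obtain ⟨J, hJcard, hJ⟩ := inertia_at Γ hv
  obtain ⟨σ, hσJ, hord, ζ, hζ, hrot⟩ := exists_rot_generator w J hJ
  rw [hJcard] at hord hζ
  have he := hv.1
  have hζ0 : ζ ≠ 0 := hζ.ne_zero (by omega)
  obtain ⟨g, hg, htriv, hcomp, hdvd⟩ := hσ σ σ.2 (hJ σ hσJ)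
  rw [hord] at hdvd
  obtain ⟨t, ht⟩ := hdvd
  have hgo : 0 < orderOf g := by
    rcases Nat.eq_zero_or_pos (orderOf g) with h0 | h0
    · rw [h0, zero_mul] at ht
      omega
    · exact h0
  have ht0 : 0 < t := by
    rcases Nat.eq_zero_or_pos t with h0 | h0
    · rw [h0, mul_zero] at ht
      omega
    · exact h0
  -- powers
  have hpow : ∀ (i : I) (z : C i) (m : ℕ), ∃ z' : C i, (z' : M) = (g ^ m) z ∧
      ι i z' = ((σ : N ≃ₐ[k] N) ^ m) (ι i z) := by
    intro i z m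
    induction m with
    | zero => exact ⟨z, rfl, rfl⟩
    | succ m ih =>
      obtain ⟨z', h1, h2⟩ := ih
      refine ⟨⟨g z', hst g hg i z' z'.2⟩, ?_, ?_⟩
      · change g (z' : M) = _
        rw [h1, pow_succ']
        rfl
      · rw [hcomp i z' _ rfl, h2, pow_succ']
        rfl
  have hfd : ∀ i : I, t ∣ f i := by
    intro i
    obtain ⟨t0, ht00, ht01⟩ := (ww i).surj
    have h1 : w.ord (ι i t0) = f i := by
      have := (hf i).2 t0
      rw [ht01, mul_one] at this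
      exact this
    have h2 : ι i t0 ≠ 0 := (_root_.map_ne_zero _).2 ht00
    have h3 := rot_pow hrot hζ0 (ι i t0) h2 (orderOf g)
    obtain ⟨z', h4, h5⟩ := hpow i t0 (orderOf g)
    rw [pow_orderOf_eq_one] at h4
    have h6 : z' = t0 := Subtype.ext h4
    rw [h6] at h5
    rw [← h5, h1] at h3
    have h7 : ι i t0 - algebraMap k N ((ζ ^ (f i : ℤ)) ^ orderOf g) * ι i t0 =
        algebraMap k N (1 - (ζ ^ (f i : ℤ)) ^ orderOf g) * ι i t0 := by
      rw [map_sub, map_one]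
      ring
    rw [h7] at h3
    have h8 : (ζ ^ (f i : ℤ)) ^ orderOf g = 1 := by
      by_contra hne
      have h9 : (1 : k) - (ζ ^ (f i : ℤ)) ^ orderOf g ≠ 0 := sub_ne_zero.2 (Ne.symm hne)
      have h10 : algebraMap k N (1 - (ζ ^ (f i : ℤ)) ^ orderOf g) ≠ 0 := (_root_.map_ne_zero _).2 h9
      rcases h3 with h3 | h3
      · exact mul_ne_zero h10 h2 h3
      · rw [w.ord_mul h10 h2, w.ord_const h9, h1] at h3
        omega
    rw [zpow_natCast, ← pow_mul] at h8
    have h9 := (hζ.pow_eq_one_iff_dvd _).1 h8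
    rw [ht, mul_comm] at h9
    exact Nat.dvd_of_mul_dvd_mul_right hgo h9
  choose c hc using hfd
  have hc0 : ∀ i, 0 < c i := by
    intro i
    rcases Nat.eq_zero_or_pos (c i) with h0 | h0
    · have h1 := (hf i).1
      rw [hc, h0, mul_zero] at h1
      omega
    · exact h0
  have hζt : IsPrimitiveRoot (ζ ^ t) (orderOf g) := hζ.pow (by omega) (by rw [ht, mul_comm])
  have h1 := h.sub hgen hg I htriv hζt hgo ww p r c hp hB hc0 (by
    intro i t0 z ht01 hz
    have ht00 : t0 ≠ 0 := by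
      rintro rfl
      rw [(ww i).ord_zero] at ht01
      omega
    have h1 : w.ord (ι i t0) = f i := by
      have := (hf i).2 t0
      rw [ht01, mul_one] at this
      exact this
    have h2 : ι i t0 ≠ 0 := (_root_.map_ne_zero _).2 ht00
    have h3 := hrot (ι i t0) h2
    rw [h1, zpow_natCast, ← hcomp i t0 z hz.symm] at h3
    have h4 : (ζ ^ t) ^ c i = ζ ^ f i := by rw [← pow_mul, ← hc]
    rw [h4]
    have h5 : ι i z - algebraMap k N (ζ ^ f i) * ι i t0 =
        ι i (z - algebraMap k (C i) (ζ ^ f i) * t0) := by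
      rw [map_sub, map_mul, AlgHom.commutes]
    rw [h5] at h3
    rcases h3 with h3 | h3
    · left
      exact (map_eq_zero (ι i)).1 h3
    · right
      rw [(hf i).2] at h3
      have h6 : (1 : ℤ) ≤ f i := by exact_mod_cast (hf i).1
      by_contra hcon
      push Not at hcon
      nlinarith)
  have h2 : (∑ i ∈ I, α i) * (e : ℚ) = t * ((∑ i ∈ I, α i) * orderOf g) := by
    rw [ht]
    push_cast
    ring
  rw [h2]
  have h3 := mul_le_mul_of_nonneg_left h1 (show (0 : ℚ) ≤ t by positivity)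
  refine h3.trans (le_of_eq ?_)
  rw [Finset.mul_sum]
  refine Finset.sum_congr rfl fun i _ => ?_
  rw [hc]
  push_cast
  ring

end

end Pool.Agent.K4H25.LG
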