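import Pool.Agent.K4H25.LG.L1

/-!
The criterion for open curves: the inequality for the degrees.
-/

set_option autoImplicit false
set_option linter.overlappingInstances false
set_option linter.unusedSectionVars false
set_option linter.unusedVariables false
set_option maxHeartbeats 4000000
set_option synthInstance.maxHeartbeats 400000

open Polynomial FF IntermediateField Pool.Agent.TH466.QG Pool.Agent.W619.PQ Pool.Agent.W619.PL
  Pool.Agent.W619.TW Pool.Agent.W603.LV Pool.Agent.K4H25.GQ Pool.Agent.K4H25.GW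
  Pool.Agent.K4H25.HY

namespace Pool.Agent.K4H25.LG

section

variable {k : Type} [Field k] [CharZero k] [IsAlgClosed k] {N : Type} [Field N] [Algebra k N]
  {M : Type} [Field M] [Algebra k M] {n : ℕ}

/-- general places -/
theorem gen_places {C : Fin n → IntermediateField k M} [hC : ∀ i, IsFF k (C i)]
    {G : Subgroup (M ≃ₐ[k] M)} [Finite G] (B : ∀ i, Finset (Place k ↥(C i ⊓ fixedField G)))
    {δ : ∀ i, Place k ↥(C i ⊓ fixedField G) → ℚ}
    (hst : ∀ g ∈ G, ∀ i, ∀ z ∈ C i, g z ∈ C i)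
    (T0 : ∀ i, Finset (Place k ↥(C i ⊓ fixedField G))) (hT0 : ∀ i, ∀ q ∉ T0 i, δ i q = 0) :
    ∀ i, ∃ w p, LiesOver (inf_le_left : C i ⊓ fixedField G ≤ C i) w p 1 ∧
      δ i p = 0 ∧ p ∉ B i := by
  classical
  intro i
  obtain ⟨w, p, h1, h2⟩ := general_place (C i) G (fun g hg => hst g hg i) (T0 i ∪ B i)
  rw [Finset.mem_union, not_or] at h2
  exact ⟨w, p, h1, hT0 i p h2.1, h2.2⟩

/-- **The criterion for a curve.** -/
theorem global_ineq (Γ : Subgroup (N ≃ₐ[k] N)) [Finite Γ] [IsFF k N]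
    {C : Fin n → IntermediateField k M} [hC : ∀ i, IsFF k (C i)]
    {G : Subgroup (M ≃ₐ[k] M)} [Finite G] {B : ∀ i, Finset (Place k ↥(C i ⊓ fixedField G))}
    {α : Fin n → ℚ} (hα : ∀ i, 0 < α i)
    {δ : ∀ i, Place k ↥(C i ⊓ fixedField G) → ℚ} (hδ : ∀ i p, δ i p ≤ 1) (h : LAge C G B α δ)
    (hst : ∀ g ∈ G, ∀ i, ∀ z ∈ C i, g z ∈ C i)
    (T0 : ∀ i, Finset (Place k ↥(C i ⊓ fixedField G))) (hT0 : ∀ i, ∀ q ∉ T0 i, δ i q = 0)
    (I : Finset (Fin n)) (ι : ∀ i : I, C i →ₐ[k] N)
    (hσ : ∀ σ ∈ Γ, ∃ g ∈ G, (∀ i ∉ I, ∀ z ∈ C i, g z = z) ∧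
      (∀ (i : I) (z z' : C i), (z' : M) = g z → ι i z' = σ (ι i z)) ∧ orderOf g ∣ orderOf σ)
    (κ : ∀ i : I, ↥(C i ⊓ fixedField G) →ₐ[k] fixedField Γ)
    (hκ : ∀ (i : I) (b : ↥(C i ⊓ fixedField G)), ((κ i b : fixedField Γ) : N) =
      ι i (inclusion (inf_le_left : C i ⊓ fixedField G ≤ C i) b))
    (S : Finset (Place k (fixedField Γ)))
    (hS : ∀ P ∉ S, ∀ (i : I) (p : Place k ↥(C i ⊓ fixedField G)) (e : ℕ), OverH (κ i) P p e →
      p ∉ B i) :
    ∑ i : I, α i * ((degH (κ i) : ℚ) *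
      (canDeg k ↥(C i ⊓ fixedField G) + ∑ q ∈ T0 i, δ i q)) ≤
      (∑ i ∈ I, α i) * (canDeg k (fixedField Γ) + S.card) := by
  classical
  have hFFB : ∀ i, IsFF k ↥(C i ⊓ fixedField G) := fun i => isFF_quo (C i) G
    (fun g hg => hst g hg i)
  have hfd : FiniteDimensional (fixedField Γ) N := fixed_finite Γ
  have hFFE : IsFF k (fixedField Γ) := isFF_down (E := N)
  have hgen := gen_places (δ := δ) B hst T0 hT0
  choose pz kz hz T1 hT1 using fun i : I => rhH (κ i) (δ i) (T0 i) (hT0 i)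
  obtain ⟨T, hT⟩ : ∃ T : Finset (Place k (fixedField Γ)), T = Finset.univ.biUnion T1 ∪ S :=
    ⟨_, rfl⟩
  have hT' : ∀ i, T1 i ⊆ T := fun i => by
    rw [hT]
    exact (Finset.subset_biUnion_of_mem T1 (Finset.mem_univ i)).trans Finset.subset_union_left
  have hST : S ⊆ T := by
    rw [hT]
    exact Finset.subset_union_right
  have hα0 : 0 ≤ ∑ i ∈ I, α i := Finset.sum_nonneg fun i _ => (hα i).le
  have h1 : ∑ i : I, α i * ((degH (κ i) : ℚ) *
      (canDeg k ↥(C i ⊓ fixedField G) + ∑ q ∈ T0 i, δ i q)) =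
      ∑ i : I, (α i * (canDeg k (fixedField Γ) : ℚ) +
        ∑ z ∈ T, α i * (1 - (kz i z : ℚ) * (1 - δ i (pz i z)))) := by
    refine Finset.sum_congr rfl fun i _ => ?_
    rw [hT1 i T (hT' i), mul_add, Finset.mul_sum]
  rw [h1, Finset.sum_add_distrib, Finset.sum_comm, ← Finset.sum_mul,
    Finset.sum_coe_sort I (fun i : Fin n => α i)]
  have h2 : ∑ z ∈ T, ∑ i : I, α i * (1 - (kz i z : ℚ) * (1 - δ i (pz i z))) ≤
      (∑ i ∈ I, α i) * S.card := by
    have h2a : ∀ z ∈ T, ∑ i : I, α i * (1 - (kz i z : ℚ) * (1 - δ i (pz i z))) ≤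
        if z ∈ S then ∑ i ∈ I, α i else 0 := by
      intro z _
      split_ifs with hzS
      · rw [← Finset.sum_coe_sort I (fun i : Fin n => α i)]
        refine Finset.sum_le_sum fun i _ => ?_
        have h3 := hδ i (pz i z)
        have h4 : (0 : ℚ) ≤ kz i z := Nat.cast_nonneg _
        have h5 := hα i
        nlinarith [mul_nonneg h4 (sub_nonneg.2 h3)]
      obtain ⟨e, w, hw⟩ := exists_place_over (E := N) z
      choose f ww hf using fun i : I => exists_overH (ι i) w
      choose r p hp using fun i : I => exists_overH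
        (inclusion (inf_le_left : C i ⊓ fixedField G ≤ C i)) (ww i)
      have h4 : ∀ i, f i * r i = e * kz i z ∧ p i = pz i z := by
        intro i
        refine ord_uniq (Nat.mul_pos (hf i).1 (hp i).1) (Nat.mul_pos hw.1 (hz i z).1) fun b => ?_
        have h5 := (hf i).2 (inclusion (inf_le_left : C i ⊓ fixedField G ≤ C i) b)
        rw [← hκ, (hp i).2] at h5
        have h6 := hw.2 (κ i b)
        change w.ord ((κ i b : fixedField Γ) : N) = _ at h6
        rw [h6, (hz i z).2] at h5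
        push_cast
        linarith
      have h3 := local_ineq Γ h hgen I ι hst hw (fun σ h1 _ => hσ σ h1) ww f hf p r hp
        (fun i => by
          rw [(h4 i).2]
          exact hS z hzS i _ _ (hz i z))
      have h5 : ∑ i : I, α i * ((r i : ℚ) * (1 - δ i (p i)) * f i) =
          e * ∑ i : I, α i * ((kz i z : ℚ) * (1 - δ i (pz i z))) := by
        rw [Finset.mul_sum]
        refine Finset.sum_congr rfl fun i _ => ?_
        obtain ⟨h6, h7⟩ := h4 i
        rw [h7]
        have h8 : (f i : ℚ) * r i = e * kz i z := by exact_mod_cast h6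
        linear_combination α i * (1 - δ i (pz i z)) * h8
      rw [h5] at h3
      have he : (0 : ℚ) < e := by exact_mod_cast hw.1
      have h6 : ∑ i ∈ I, α i ≤ ∑ i : I, α i * ((kz i z : ℚ) * (1 - δ i (pz i z))) := by
        by_contra hcon
        push Not at hcon
        nlinarith
      have h7 : ∑ i : I, α i * (1 - (kz i z : ℚ) * (1 - δ i (pz i z))) =
          ∑ i ∈ I, α i - ∑ i : I, α i * ((kz i z : ℚ) * (1 - δ i (pz i z))) := by
        rw [← Finset.sum_coe_sort I (fun i : Fin n => α i), ← Finset.sum_sub_distrib]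
        refine Finset.sum_congr rfl fun i _ => ?_
        ring
      rw [h7]
      linarith
    refine (Finset.sum_le_sum h2a).trans (le_of_eq ?_)
    rw [Finset.sum_ite_mem, Finset.inter_eq_right.2 hST, Finset.sum_const, nsmul_eq_mul, mul_comm]
  rw [mul_add]
  linarith

end

end Pool.Agent.K4H25.LG
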