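import Pool.Agent.K4H25.LG.L2

/-!
The heights of the specializations of the functions on the curves.
-/

set_option autoImplicit false
set_option linter.overlappingInstances false
set_option linter.unusedSectionVars false
set_option linter.unusedVariables false
set_option maxHeartbeats 4000000
set_option synthInstance.maxHeartbeats 400000

open Polynomial FF IntermediateField Pool.Agent.TH466.QG Pool.Agent.W619.PQ Pool.Agent.W619.PL
  Pool.Agent.W619.TW Pool.Agent.W603.LV Pool.Agent.K4H25.GQ Pool.Agent.K4H25.GW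
  Pool.Agent.K4H25.HY

namespace Pool.Agent.K4H25.LG

section

variable {k : Type} [Field k] [CharZero k] [IsAlgClosed k] {M : Type} [Field M] [Algebra k M]
  {n : ℕ}

/-- **The heights of the specializations of the functions on the curves.** -/
theorem curve_hgt (C : Fin n → IntermediateField k M) [hC : ∀ i, IsFF k (C i)]
    (hsup : ⨆ i, C i = ⊤) (G : Subgroup (M ≃ₐ[k] M)) [Finite G]
    (hst : ∀ g ∈ G, ∀ i, ∀ z ∈ C i, g z ∈ C i)
    {α : Fin n → ℚ} (hα : ∀ i, 0 < α i)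
    {B : ∀ i, Finset (Place k ↥(C i ⊓ fixedField G))}
    {δ : ∀ i, Place k ↥(C i ⊓ fixedField G) → ℚ} (hδ : ∀ i p, δ i p ≤ 1) (h : LAge C G B α δ)
    (T0 : ∀ i, Finset (Place k ↥(C i ⊓ fixedField G))) (hT0 : ∀ i, ∀ q ∉ T0 i, δ i q = 0)
    (hdeg : ∀ i, (0 : ℚ) < canDeg k ↥(C i ⊓ fixedField G) + ∑ q ∈ T0 i, δ i q)
    (Y : ∀ i, Finset (C i))
    (hY : ∀ i, IntermediateField.adjoin k ((fun z : C i => (z : M)) '' (Y i : Set (C i))) = C i)
    (Z0 : ∀ i, Finset ↥(C i ⊓ fixedField G)) (hZ0 : ∀ i, ∀ p ∈ B i, ∃ z ∈ Z0 i, p.ord z < 0) :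
    ∃ (Θ0 Θ1 : Set M) (A : ℕ), Θ0.Finite ∧ Θ1.Finite ∧ (∀ z ∈ Θ0, z ∈ fixedField G) ∧
      (∀ i, ∀ y ∈ Y i, (y : M) ∈ Θ1) ∧
      ∀ (N : Type) [Field N] [Algebra k N] [IsFF k N] (Γ : Subgroup (N ≃ₐ[k] N)) [Finite Γ]
        (S : Sp k M N) (R : Finset (Place k (fixedField Γ))),
        (∀ ϑ ∈ Θ0, ∃ t ∈ fixedField Γ, S.T ϑ t) → (∀ ϑ ∈ Θ1, ∃ t, S.T ϑ t) →
        (∀ i, ∀ z ∈ Z0 i, ∃ t : fixedField Γ, S.T ((z : ↥(C i ⊓ fixedField G)) : M) (t : N) ∧
          ∀ P ∉ R, P.Reg t) →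
        ∀ i, ∀ y ∈ Y i, ∀ y', S.T (y : M) y' → hgt k y' ≤
          A * ((Module.finrank (fixedField Γ) N : ℤ) *
            max (canDeg k (fixedField Γ) + R.card) 0) := by
  classical
  have iG := Fintype.ofFinite G
  have hFFB : ∀ i, IsFF k ↥(C i ⊓ fixedField G) := fun i => isFF_quo (C i) G
    (fun g hg => hst g hg i)
  -- the orbits of the generators
  obtain ⟨Z, hZ⟩ : ∃ Z : Set M, Z = ⋃ i, ⋃ g : G,
      (fun z : C i => (g : M ≃ₐ[k] M) (z : M)) '' (Y i : Set (C i)) := ⟨_, rfl⟩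
  have hZfin : Z.Finite := by
    rw [hZ]
    exact Set.finite_iUnion fun i => Set.finite_iUnion fun g => (Finset.finite_toSet _).image _
  have hZmem : ∀ i, ∀ y ∈ Y i, ∀ g ∈ G, g (y : M) ∈ Z := by
    intro i y hy g hg
    rw [hZ]
    exact Set.mem_iUnion.2 ⟨i, Set.mem_iUnion.2 ⟨⟨g, hg⟩, y, hy, rfl⟩⟩
  have hZst : ∀ z ∈ Z, ∀ g ∈ G, g z ∈ Z := by
    intro z hz g hg
    rw [hZ] at hz
    obtain ⟨i, hz⟩ := Set.mem_iUnion.1 hz
    obtain ⟨g', hz⟩ := Set.mem_iUnion.1 hz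
    obtain ⟨y, hy, rfl⟩ := hz
    exact hZmem i y hy (g * g') (G.mul_mem hg g'.2)
  have hYZ : ∀ i, ∀ y ∈ Y i, (y : M) ∈ Z := fun i y hy => hZmem i y hy 1 G.one_mem
  obtain ⟨Θ0, Θ1, h0fin, h1fin, h0G, hgal⟩ := galois_spec (k := k) G hZfin
  obtain ⟨Θ2, hΘ2⟩ : ∃ Θ2 : Set M, Θ2 = ⋃ g : G, (fun z : M => ((g : M ≃ₐ[k] M) z - z)⁻¹) '' Z :=
    ⟨_, rfl⟩
  have h2fin : Θ2.Finite := by
    rw [hΘ2]
    exact Set.finite_iUnion fun g => hZfin.image _
  have h2mem : ∀ z ∈ Z, ∀ g ∈ G, (g z - z)⁻¹ ∈ Θ2 := by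
    intro z hz g hg
    rw [hΘ2]
    exact Set.mem_iUnion.2 ⟨⟨g, hg⟩, z, hz, rfl⟩
  -- the constants
  obtain ⟨d, hd⟩ : ∃ d : Fin n → ℚ, d = fun i =>
      (canDeg k ↥(C i ⊓ fixedField G) : ℚ) + ∑ q ∈ T0 i, δ i q := ⟨_, rfl⟩
  have hd0 : ∀ i, 0 < d i := fun i => by rw [hd]; exact hdeg i
  obtain ⟨a, ha⟩ : ∃ a : Fin n → ℕ, ∀ i, (∑ j, α j) / (α i * d i) ≤ a i :=
    ⟨fun i => ⌈(∑ j, α j) / (α i * d i)⌉₊, fun i => Nat.le_ceil _⟩
  obtain ⟨b, hb⟩ : ∃ b : Fin n → ℕ, ∀ i, ∀ y ∈ Y i, hgt k y ≤ b i := by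
    refine ⟨fun i => ∑ y ∈ Y i, (hgt k y).toNat, fun i y hy => ?_⟩
    have h1 := Finset.single_le_sum (f := fun y : C i => (hgt k y).toNat)
      (fun _ _ => Nat.zero_le _) hy
    have h2 := Int.self_le_toNat (hgt k y)
    refine h2.trans ?_
    exact_mod_cast h1
  refine ⟨Θ0, Θ1 ∪ (Θ2 ∪ Z), ∑ i, a i * b i, h0fin, h1fin.union (h2fin.union hZfin), h0G,
    fun i y hy => Or.inr (Or.inr (hYZ i y hy)), ?_⟩
  intro N _ _ _ Γ _ S R hS0 hS1 hSR
  have hfdN : FiniteDimensional (fixedField Γ) N := fixed_finite Γ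
  have hFFE : IsFF k (fixedField Γ) := isFF_down (E := N)
  have hZS : ∀ z ∈ Z, ∃ t, S.T z t := fun z hz => hS1 z (Or.inr (Or.inr hz))
  have hback : ∀ z ∈ Z, ∀ g ∈ G, ∀ z' : N, S.T (g z) z' → S.T z z' → g z = z := by
    intro z hz g hg z' h1 h2
    have h3 := S.sub h1 h2
    rw [sub_self] at h3
    exact sub_eq_zero.1 (S.back h3 (hS1 _ (Or.inr (Or.inl (h2mem z hz g hg)))) rfl)
  have hact : ∀ σ ∈ Γ, ∃ g ∈ G, ∀ y ∈ Z, ∀ y', S.T y y' → S.T (g y) (σ y') := by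
    intro σ hσ
    refine hgal N S σ (fun ϑ hϑ => ?_) (fun ϑ hϑ => hS1 ϑ (Or.inl hϑ))
    obtain ⟨t, ht, hst⟩ := hS0 ϑ hϑ
    exact ⟨t, hst, ht ⟨σ, hσ⟩⟩
  -- the curves on which the specialization is not constant
  obtain ⟨I, hI⟩ : ∃ I : Finset (Fin n), ∀ i, i ∈ I ↔
      ∃ y ∈ Y i, ∃ y', S.T (y : M) y' ∧ Transcendental k y' :=
    ⟨Finset.univ.filter fun i => ∃ y ∈ Y i, ∃ y', S.T (y : M) y' ∧ Transcendental k y',
      fun i => by simp⟩
  have halg : ∀ i ∉ I, ∀ y ∈ Y i, ∀ y', S.T (y : M) y' → IsAlgebraic k y' := by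
    intro i hi y hy y' hyy'
    by_contra hcon
    exact hi ((hI i).2 ⟨y, hy, y', hyy', hcon⟩)
  have hex : ∀ i : I, ∃ ι : C i →ₐ[k] N, ∀ (z : C i) (z' : N), S.T (z : M) z' → ι z = z' := by
    intro i
    obtain ⟨y, hy, y', hyy', htr⟩ := (hI i).1 i.2
    refine exists_embed S (C i) (hY i) ?_ y.2 hyy' htr
    rintro _ ⟨z, hz, rfl⟩
    exact hZS _ (hYZ i z hz)
  choose ι hι using hex
  have hσ : ∀ σ ∈ Γ, ∃ g ∈ G, (∀ i ∉ I, ∀ z ∈ C i, g z = z) ∧
      (∀ (i : I) (z z' : C i), (z' : M) = g z → ι i z' = σ (ι i z)) ∧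
        orderOf g ∣ orderOf σ := by
    intro σ hσΓ
    obtain ⟨g, hg, hgS⟩ := hact σ hσΓ
    refine ⟨g, hg, ?_, ?_, ?_⟩
    · intro i hi
      refine fix_adjoin (hY i) ?_
      rintro _ ⟨y, hy, rfl⟩
      obtain ⟨y', hy'⟩ := hZS _ (hYZ i y hy)
      have h1 := halg i hi y hy y' hy'
      obtain ⟨c, rfl⟩ := minpoly.mem_range_of_degree_eq_one k y'
        (IsAlgClosed.degree_eq_one_of_irreducible k (minpoly.irreducible h1.isIntegral))
      have h2 := hgS _ (hYZ i y hy) _ hy'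
      rw [AlgEquiv.commutes] at h2
      exact hback _ (hYZ i y hy) g hg _ h2 hy'
    · intro i z z' hz'
      have h1 : (ι i).comp ((rho G (C i) (fun g hg => hst g hg i) ⟨g, hg⟩ :
          C i ≃ₐ[k] C i) : C i →ₐ[k] C i) = (σ : N →ₐ[k] N).comp (ι i) := by
        refine algHom_ext_of_eq_adjoin k (hY i).symm ?_
        rintro _ ⟨y, hy, rfl⟩
        obtain ⟨y', hy'⟩ := hZS _ (hYZ i y hy)
        have h2 := hgS _ (hYZ i y hy) _ hy'
        have h3 := hι i y y' hy'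
        have h4 := hι i (rho G (C i) (fun g hg => hst g hg i) ⟨g, hg⟩ y) (σ y') h2
        change ι i (rho G (C i) (fun g hg => hst g hg i) ⟨g, hg⟩ y) = σ (ι i y)
        rw [h3, h4]
      have h2 := congrArg (fun φ : C i →ₐ[k] N => φ z) h1
      have h3 : z' = rho G (C i) (fun g hg => hst g hg i) ⟨g, hg⟩ z := Subtype.ext hz'
      rw [h3]
      exact h2
    · apply orderOf_dvd_of_pow_eq_one
      have h1 : ∀ m : ℕ, ∀ y ∈ Z, ∀ y', S.T y y' → S.T ((g ^ m) y) ((σ ^ m) y') := by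
        intro m
        induction m with
        | zero =>
          intro y _ y' hyy'
          exact hyy'
        | succ m ih =>
          intro y hy y' hyy'
          rw [pow_succ', pow_succ']
          exact hgS _ (hZst y hy _ (G.pow_mem hg m)) _ (ih y hy y' hyy')
      have h2 : ∀ i, ∀ z ∈ C i, (g ^ orderOf σ) z = z := by
        intro i
        refine fix_adjoin (hY i) ?_
        rintro _ ⟨y, hy, rfl⟩
        obtain ⟨y', hy'⟩ := hZS _ (hYZ i y hy)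
        have h3 := h1 (orderOf σ) _ (hYZ i y hy) y' hy'
        rw [pow_orderOf_eq_one] at h3
        exact hback _ (hYZ i y hy) _ (G.pow_mem hg _) _ h3 hy'
      have h3 : (⨆ i, C i) ≤ fixedField (Subgroup.zpowers (g ^ orderOf σ)) := by
        refine iSup_le fun i z hz => ?_
        have h4 : Subgroup.zpowers (g ^ orderOf σ) ≤ MulAction.stabilizer (M ≃ₐ[k] M) z :=
          (Subgroup.zpowers_le).2 (MulAction.mem_stabilizer_iff.2 (h2 i z hz))
        intro u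
        exact MulAction.mem_stabilizer_iff.1 (h4 u.2)
      apply AlgEquiv.ext
      intro z
      have h4 : z ∈ fixedField (Subgroup.zpowers (g ^ orderOf σ)) := by
        apply h3
        rw [hsup]
        exact IntermediateField.mem_top
      exact h4 ⟨_, Subgroup.mem_zpowers _⟩
  -- the quotients of the curves
  have hfix : ∀ (i : I) (c : ↥(C i ⊓ fixedField G)),
      ι i (inclusion (inf_le_left : C i ⊓ fixedField G ≤ C i) c) ∈ fixedField Γ := by
    rintro i c ⟨σ, hσΓ⟩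
    obtain ⟨g, hg, -, h2, -⟩ := hσ σ hσΓ
    have h3 : ((inclusion (inf_le_left : C i ⊓ fixedField G ≤ C i) c : C i) : M) =
        g ((inclusion (inf_le_left : C i ⊓ fixedField G ≤ C i) c : C i) : M) :=
      (c.2.2 ⟨g, hg⟩).symm
    exact (h2 i _ _ h3).symm
  obtain ⟨κ, hκ⟩ : ∃ κ : ∀ i : I, ↥(C i ⊓ fixedField G) →ₐ[k] fixedField Γ,
      ∀ (i : I) (b : ↥(C i ⊓ fixedField G)), ((κ i b : fixedField Γ) : N) =
        ι i (inclusion (inf_le_left : C i ⊓ fixedField G ≤ C i) b) :=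
    ⟨fun i => ((ι i).comp (inclusion (inf_le_left : C i ⊓ fixedField G ≤ C i))).codRestrict
      (fixedField Γ).toSubalgebra (hfix i),
      fun i b => rfl⟩
  have hR : ∀ P ∉ R, ∀ (i : I) (p : Place k ↥(C i ⊓ fixedField G)) (e : ℕ),
      OverH (κ i) P p e → p ∉ B i := by
    intro P hP i p e hp hpB
    obtain ⟨z, hz, hzp⟩ := hZ0 i p hpB
    obtain ⟨t, ht, hreg⟩ := hSR i z hz
    have h1 : κ i z = t := by
      apply Subtype.ext
      rw [hκ]
      exact hι i _ _ ht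
    have h2 := hp.2 z
    rw [h1] at h2
    have h3 := hreg P hP
    have h4 : (t : fixedField Γ) ≠ 0 := by
      rw [← h1]
      intro h5
      rw [map_eq_zero] at h5
      rw [h5, p.ord_zero] at hzp
      exact lt_irrefl _ hzp
    have h5 := h3.resolve_left h4
    rw [h2] at h5
    have h6 : (1 : ℤ) ≤ e := by exact_mod_cast hp.1
    nlinarith
  have hmain := global_ineq Γ hα hδ h hst T0 hT0 I ι hσ κ hκ R hR
  obtain ⟨χ, hχ⟩ : ∃ χ : ℤ, χ = max (canDeg k (fixedField Γ) + R.card) 0 := ⟨_, rfl⟩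
  have hχ0 : 0 ≤ χ := by rw [hχ]; exact le_max_right _ _
  have hχ1 : canDeg k (fixedField Γ) + R.card ≤ χ := by rw [hχ]; exact le_max_left _ _
  have hdegκ : ∀ i : I, (degH (κ i) : ℚ) ≤ a i * χ := by
    intro i
    have h1 : α i * ((degH (κ i) : ℚ) * d i) ≤ (∑ j, α j) * χ := by
      have h2 : α i * ((degH (κ i) : ℚ) * d i) ≤ ∑ j : I, α j * ((degH (κ j) : ℚ) * d j) :=
        Finset.single_le_sum (f := fun j : I => α j * ((degH (κ j) : ℚ) * d j))
          (fun j _ => mul_nonneg (hα j).le (mul_nonneg (Nat.cast_nonneg _) (hd0 j).le))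
          (Finset.mem_univ i)
      have h3 : ∑ j : I, α j * ((degH (κ j) : ℚ) * d j) ≤
          (∑ j ∈ I, α j) * (canDeg k (fixedField Γ) + R.card) := by
        rw [hd]
        exact hmain
      have h4 : ∑ j ∈ I, α j ≤ ∑ j, α j :=
        Finset.sum_le_sum_of_subset_of_nonneg (Finset.subset_univ I) fun j _ _ => (hα j).le
      have h5 : (canDeg k (fixedField Γ) : ℚ) + R.card ≤ χ := by exact_mod_cast hχ1
      have h6 : (0 : ℚ) ≤ χ := by exact_mod_cast hχ0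
      have h7 : (0 : ℚ) ≤ ∑ j ∈ I, α j := Finset.sum_nonneg fun j _ => (hα j).le
      nlinarith
    have h2 : 0 < α i * d i := mul_pos (hα i) (hd0 i)
    have h3 : (degH (κ i) : ℚ) ≤ (∑ j, α j) / (α i * d i) * χ := by
      rw [div_mul_eq_mul_div, le_div_iff₀ h2]
      linarith
    have h6 : (0 : ℚ) ≤ χ := by exact_mod_cast hχ0
    exact h3.trans (mul_le_mul_of_nonneg_right (ha i) h6)
  intro i y hy y' hyy'
  rw [← hχ]
  have hfr : (0 : ℤ) < Module.finrank (fixedField Γ) N := by exact_mod_cast Module.finrank_pos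
  by_cases hi : i ∈ I
  · have h1 : ι ⟨i, hi⟩ y = y' := hι ⟨i, hi⟩ y y' hyy'
    have h2 : hgt k y' = degH (ι ⟨i, hi⟩) * hgt k y := by
      rw [← h1]
      exact hgt_degH (A := C i) (ι ⟨i, hi⟩) y
    have h3 : degH ((ι ⟨i, hi⟩).comp (inclusion (inf_le_left : C i ⊓ fixedField G ≤ C i))) =
        degH ((fixedField Γ).val.comp (κ ⟨i, hi⟩)) := by
      congr 1
      apply AlgHom.ext
      intro c
      exact (hκ ⟨i, hi⟩ c).symm
    rw [degH_comp, degH_comp] at h3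
    have h4 : degH (fixedField Γ).val = Module.finrank (fixedField Γ) N := rfl
    rw [h4] at h3
    have h5 : 0 < degH (inclusion (inf_le_left : C i ⊓ fixedField G ≤ C i)) :=
      degH_pos (A := ↥(C i ⊓ fixedField G)) (B := C i) _
    have h6 : degH (ι ⟨i, hi⟩) ≤ degH (κ ⟨i, hi⟩) * Module.finrank (fixedField Γ) N := by
      rw [← h3]
      exact Nat.le_mul_of_pos_left _ h5
    have h7 : (degH (κ ⟨i, hi⟩) : ℤ) ≤ a i * χ := by exact_mod_cast hdegκ ⟨i, hi⟩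
    have h8 : (degH (ι ⟨i, hi⟩) : ℤ) ≤ a i * (Module.finrank (fixedField Γ) N * χ) := by
      have h9 : (degH (ι ⟨i, hi⟩) : ℤ) ≤ degH (κ ⟨i, hi⟩) * Module.finrank (fixedField Γ) N := by
        exact_mod_cast h6
      nlinarith
    have h9 : (0 : ℤ) ≤ Module.finrank (fixedField Γ) N * χ := mul_nonneg hfr.le hχ0
    have h10 := hb i y hy
    have h11 : 0 ≤ hgt k y := hgt_nonneg _
    have h12 : (a i * b i : ℕ) ≤ ∑ j, a j * b j :=
      Finset.single_le_sum (f := fun j => a j * b j) (fun _ _ => Nat.zero_le _)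
        (Finset.mem_univ i)
    have h13 : ((a i * b i : ℕ) : ℤ) ≤ ((∑ j, a j * b j : ℕ) : ℤ) := by exact_mod_cast h12
    rw [h2]
    calc (degH (ι ⟨i, hi⟩) : ℤ) * hgt k y ≤ (a i * (Module.finrank (fixedField Γ) N * χ)) * b i :=
          mul_le_mul h8 h10 h11 (by positivity)
      _ = ((a i * b i : ℕ) : ℤ) * (Module.finrank (fixedField Γ) N * χ) := by push_cast; ring
      _ ≤ _ := mul_le_mul_of_nonneg_right h13 h9
  · have h1 : hgt k y' = 0 := Pool.Agent.W603.PV.hgt_algebraic (halg i hi y hy y' hyy')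
    rw [h1]
    positivity

end

end Pool.Agent.K4H25.LG
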