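import Pool.Agent.K4H25.LG.L3
import Pool.Agent.K4H65.DM.LogMain

/-!
The bound for the degrees of the affine curves.
-/

set_option autoImplicit false
set_option linter.overlappingInstances false
set_option linter.unusedSectionVars false
set_option linter.unusedVariables false
set_option maxHeartbeats 4000000
set_option synthInstance.maxHeartbeats 400000

open FF IntermediateField Pool.Agent.TH466.QG Pool.Agent.W619.PQ Pool.Agent.W619.PL
  Pool.Agent.W619.TW Pool.Agent.W603.LV Pool.Agent.K4H25.GQ Pool.Agent.K4H25.GW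
  Pool.Agent.K4H25.HY

namespace Pool.Agent.K4H25.LG

open Pool.Agent.W602.GT (val IsForm coords)
open Pool.Agent.W603.PV (pht pht_le isFF_of_finite hgt_algebraMap)
open Pool.Agent.Y221.PB (alg_hgt)
open Pool.Agent.K4H65.DM (LangVojtaBound sp_integral pht_cons_le)

/-- A function with exactly one pole. -/
theorem exists_pole_at {k B : Type} [Field k] [CharZero k] [IsAlgClosed k] [Field B] [Algebra k B]
    [IsFF k B] (p : Place k B) : ∃ z : B, p.ord z < 0 ∧ ∀ q, q ≠ p → q.Reg z := by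
  classical
  obtain ⟨γ, N', hrr, -⟩ := riemann (k := k) (K := B)
  obtain ⟨a, ha⟩ : ∃ a : ℕ, γ + 2 ≤ a := ⟨(γ + 2).toNat, Int.self_le_toNat _⟩
  have h1 := hrr (Finsupp.single p (a : ℤ))
  have h2 : ddeg (Finsupp.single p (a : ℤ)) = a := by
    unfold ddeg
    rw [Finsupp.sum_single_index (by simp), deg_one]
    simp
  rw [h2] at h1
  obtain ⟨f, hf, f', hf', hf0, hf0', htr⟩ := exists_two (Finsupp.single p (a : ℤ)) (by omega)
  have hreg : ∀ g ∈ LL (Finsupp.single p (a : ℤ)), ∀ q, q ≠ p → q.Reg g := by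
    intro g hg q hq
    by_cases hg0 : g = 0
    · exact Or.inl hg0
    · have h3 := (mem_LL.1 hg).resolve_left hg0 q
      rw [Finsupp.single_eq_of_ne hq] at h3
      exact Or.inr (by omega)
  by_cases h3 : p.ord f < 0
  · exact ⟨f, h3, hreg f hf⟩
  by_cases h4 : p.ord f' < 0
  · exact ⟨f', h4, hreg f' hf'⟩
  exfalso
  have hc : ∀ g ∈ LL (Finsupp.single p (a : ℤ)), ¬ p.ord g < 0 → IsAlgebraic k g := by
    intro g hg hgp
    by_contra htr
    obtain ⟨T, hT, hT2⟩ := poles (k := k) (K := B) htr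
    have hfin := IsFF.finite (k := k) (K := B) htr
    have hpos : 0 < Module.finrank k⟮g⟯ B := Module.finrank_pos
    have hT0 : T = ∅ := by
      rw [Finset.eq_empty_iff_forall_notMem]
      intro w hw
      have h5 := (hT w).1 hw
      by_cases hwp : w = p
      · rw [hwp] at h5
        exact hgp h5
      · rcases hreg g hg w hwp with h6 | h6
        · rw [h6, w.ord_zero] at h5
          omega
        · omega
    rw [hT0, Finset.sum_empty] at hT2
    omega
  apply htr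
  rw [div_eq_mul_inv]
  exact (hc f' hf' h4).mul (hc f hf h3).inv

/-- The Galois closure of a covering of a curve. -/
theorem exists_galois' {k E K'' : Type} [Field k] [CharZero k] [IsAlgClosed k] [Field E]
    [Field K''] [Algebra k E] [Algebra k K''] [Algebra E K''] [IsScalarTower k E K'']
    [FiniteDimensional E K''] [IsFF k E] :
    ∃ (N : Type) (_ : Field N) (_ : Algebra k N) (_ : IsFF k N) (φ : K'' →ₐ[k] N)
      (Γ : Subgroup (N ≃ₐ[k] N)) (_ : Finite Γ) (θ : E ≃ₐ[k] fixedField Γ),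
      (∀ e : E, ((θ e : fixedField Γ) : N) = φ (algebraMap E K'' e)) ∧
      canDeg k (fixedField Γ) = canDeg k E ∧
      (∀ e : E, hgt k (φ (algebraMap E K'' e)) = Module.finrank (fixedField Γ) N * hgt k e) ∧
      0 < Module.finrank (fixedField Γ) N := by
  obtain ⟨N, iN, ikN, iEN, iKN, s1, s2, s3, hfin, Γ, hΓ, ia, s4, hfin2, hφ, hsurj⟩ :=
    Pool.Agent.R885.N.exists_closure (k := k) (K := E) (L := K'')
  have hff : IsFF k N := isFF_of_finite (F := E)
  have hfd : FiniteDimensional (fixedField Γ) N := fixed_finite Γ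
  have hFFE' : IsFF k (fixedField Γ) := isFF_down (E := N)
  have hcomp : ∀ e : E, (IsScalarTower.toAlgHom k K'' N) (algebraMap E K'' e) =
      algebraMap E N e := fun e => (IsScalarTower.algebraMap_apply E K'' N e).symm
  have hbij : Function.Bijective (algebraMap (fixedField Γ) E) :=
    ⟨(algebraMap (fixedField Γ) E).injective, hsurj⟩
  refine ⟨N, iN, ikN, hff, IsScalarTower.toAlgHom k K'' N, Γ, hΓ,
    (AlgEquiv.ofBijective (IsScalarTower.toAlgHom k (fixedField Γ) E) hbij).symm, fun e => ?_, ?_,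
    fun e => ?_, Module.finrank_pos⟩
  · rw [hcomp]
    obtain ⟨f, rfl⟩ := hsurj e
    rw [hφ]
    congr 1
    exact (AlgEquiv.ofBijective (IsScalarTower.toAlgHom k (fixedField Γ) E) hbij).symm_apply_apply f
  · exact (canDeg_iso (AlgEquiv.ofBijective (IsScalarTower.toAlgHom k (fixedField Γ) E)
      hbij)).symm
  · have hrank : Module.finrank (fixedField Γ) N = Module.finrank E N := by
      refine Algebra.finrank_eq_of_equiv_equiv (RingEquiv.ofBijective
        (algebraMap (fixedField Γ) E) hbij) (RingEquiv.refl N) ?_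
      ext f
      exact hφ f
    rw [hcomp, hgt_algebraMap (k := k), hrank]

section

variable {k : Type} [Field k] [CharZero k] [IsAlgClosed k] {M : Type} [Field M] [Algebra k M]
  {n : ℕ}

/-- **The bound for the degrees of the affine curves.** -/
theorem lang_vojta (C : Fin n → IntermediateField k M) [hC : ∀ i, IsFF k (C i)]
    (hsup : ⨆ i, C i = ⊤) (G : Subgroup (M ≃ₐ[k] M)) [Finite G]
    (hst : ∀ g ∈ G, ∀ i, ∀ z ∈ C i, g z ∈ C i)
    {α : Fin n → ℚ} (hα : ∀ i, 0 < α i)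
    {B : ∀ i, Finset (Place k ↥(C i ⊓ fixedField G))}
    {δ : ∀ i, Place k ↥(C i ⊓ fixedField G) → ℚ} (hδ : ∀ i p, δ i p ≤ 1) (h : LAge C G B α δ)
    (T0 : ∀ i, Finset (Place k ↥(C i ⊓ fixedField G))) (hT0 : ∀ i, ∀ q ∉ T0 i, δ i q = 0)
    (hdeg : ∀ i, (0 : ℚ) < canDeg k ↥(C i ⊓ fixedField G) + ∑ q ∈ T0 i, δ i q)
    {L : Type} [Field L] [Algebra k L] [Algebra (fixedField G) L]
    [IsScalarTower k (fixedField G) L] [FiniteDimensional (fixedField G) L] {m : ℕ}
    {x : Fin m → L} (hgenx : IntermediateField.adjoin k (Set.range x) = ⊤)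
    (hint : ∀ i, ∀ z : ↥(C i ⊓ fixedField G), (∀ p ∉ B i, p.Reg z) →
      IsIntegral (Algebra.adjoin k (Set.range x)) (algebraMap (fixedField G) L ⟨z, z.2.2⟩)) :
    LangVojtaBound k x := by
  classical
  have hfdM : FiniteDimensional (fixedField G) M := fixed_finite G
  have hFFB : ∀ i, IsFF k ↥(C i ⊓ fixedField G) := fun i => isFF_quo (C i) G
    (fun g hg => hst g hg i)
  -- the functions with poles at infinity
  obtain ⟨Z0, hZ01, hZ02⟩ : ∃ Z0 : ∀ i, Finset ↥(C i ⊓ fixedField G),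
      (∀ i, ∀ p ∈ B i, ∃ z ∈ Z0 i, p.ord z < 0) ∧
      ∀ i, ∀ z ∈ Z0 i, ∀ p ∉ B i, p.Reg z := by
    choose zz h1 h2 using fun (i : Fin n) (p : Place k ↥(C i ⊓ fixedField G)) => exists_pole_at p
    refine ⟨fun i => (B i).image (zz i), fun i p hp => ⟨zz i p, Finset.mem_image_of_mem _ hp,
      h1 i p⟩, fun i z hz p hp => ?_⟩
    obtain ⟨q, hq, rfl⟩ := Finset.mem_image.1 hz
    refine h2 i q p ?_
    rintro rfl
    exact hp hq
  obtain ⟨Θ3, hΘ3⟩ : ∃ Θ3 : Set M, Θ3 = ⋃ i, (fun z : ↥(C i ⊓ fixedField G) => (z : M)) ''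
    (Z0 i : Set ↥(C i ⊓ fixedField G)) := ⟨_, rfl⟩
  have h3fin : Θ3.Finite := by
    rw [hΘ3]
    exact Set.finite_iUnion fun i => (Finset.finite_toSet _).image _
  have h3mem : ∀ i, ∀ z ∈ Z0 i, ((z : ↥(C i ⊓ fixedField G)) : M) ∈ Θ3 := by
    intro i z hz
    rw [hΘ3]
    exact Set.mem_iUnion.2 ⟨i, z, hz, rfl⟩
  have h3G : ∀ z ∈ Θ3, z ∈ fixedField G := by
    intro z hz
    rw [hΘ3] at hz
    obtain ⟨i, z, -, rfl⟩ := Set.mem_iUnion.1 hz
    exact z.2.2
  -- generators of the curves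
  have hex : ∀ i, ∃ Y : Finset (C i),
      IntermediateField.adjoin k ((fun z : C i => (z : M)) '' (Y : Set (C i))) = C i := by
    intro i
    obtain ⟨s, hs⟩ : (C i).FG := essFiniteType_iff.1 (IsFF.ess (k := k) (K := C i))
    have hsC : ∀ z ∈ s, z ∈ C i := fun z hz => by
      rw [← hs]
      exact IntermediateField.subset_adjoin k _ hz
    refine ⟨s.subtype (· ∈ C i), ?_⟩
    have h1 : (fun z : C i => (z : M)) '' ((s.subtype (· ∈ C i) : Finset (C i)) : Set (C i)) =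
        (s : Set M) := by
      ext z
      constructor
      · rintro ⟨y, hy, rfl⟩
        exact Finset.mem_subtype.1 hy
      · intro hz
        exact ⟨⟨z, hsC z hz⟩, Finset.mem_subtype.2 hz, rfl⟩
    rw [h1]
    exact hs
  choose Y hY using hex
  -- the generic point of the product
  obtain ⟨r, yy, hyy1, hyy2⟩ : ∃ (r : ℕ) (yy : Fin r → M), (∀ j, ∃ i, ∃ y ∈ Y i, (y : M) = yy j) ∧
      ∀ i, ∀ y ∈ Y i, ∃ j, yy j = (y : M) := by
    obtain ⟨Z, hZ1, hZ2⟩ : ∃ Z : Finset M, (∀ z ∈ Z, ∃ i, ∃ y ∈ Y i, (y : M) = z) ∧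
        ∀ i, ∀ y ∈ Y i, (y : M) ∈ Z := by
      refine ⟨Finset.univ.biUnion fun i => (Y i).image fun z : C i => (z : M), fun z hz => ?_,
        fun i y hy => ?_⟩
      · obtain ⟨i, -, h1⟩ := Finset.mem_biUnion.1 hz
        obtain ⟨y, hy, h1⟩ := Finset.mem_image.1 h1
        exact ⟨i, y, hy, h1⟩
      · exact Finset.mem_biUnion.2 ⟨i, Finset.mem_univ i, Finset.mem_image_of_mem _ hy⟩
    refine ⟨Z.card, fun j => (Z.equivFin.symm j : M), fun j => hZ1 _ (Z.equivFin.symm j).2,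
      fun i y hy => ⟨Z.equivFin ⟨_, hZ2 i y hy⟩, ?_⟩⟩
    change ((Z.equivFin.symm (Z.equivFin ⟨_, hZ2 i y hy⟩) : Z) : M) = y
    rw [Equiv.symm_apply_apply]
  obtain ⟨y, hy0, hyS⟩ : ∃ y : Fin (r + 1) → M, y 0 = 1 ∧ ∀ j : Fin r, y j.succ = yy j :=
    ⟨Fin.cons 1 yy, rfl, fun j => rfl⟩
  have hy0' : y 0 ≠ 0 := by rw [hy0]; exact one_ne_zero
  have hgeny : coords k y = ⊤ := by
    have h1 : ∀ j, y j ∈ coords k y := fun j =>
      IntermediateField.subset_adjoin k _ ⟨j, 0, hy0', by rw [hy0, div_one]⟩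
    rw [eq_top_iff, ← hsup]
    refine iSup_le fun i => ?_
    rw [← hY i, IntermediateField.adjoin_le_iff]
    rintro _ ⟨z, hz, rfl⟩
    obtain ⟨j, hj⟩ := hyy2 i z hz
    have h2 := h1 j.succ
    rw [hyS, hj] at h2
    exact h2
  obtain ⟨K', iK, ikK, iLK, iMK, t1, t2, f1, f2, hcomp⟩ := exists_comp k (F := fixedField G)
    (L := L) (M := M)
  obtain ⟨Θ0', Θ1, A, h0fin', h1fin, h0G', hY1, hcurve⟩ :=
    curve_hgt C hsup G hst hα hδ h T0 hT0 hdeg Y hY Z0 hZ01
  obtain ⟨Θ0, hΘ0⟩ : ∃ Θ0 : Set M, Θ0 = Θ0' ∪ Θ3 := ⟨_, rfl⟩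
  have h0fin : Θ0.Finite := by
    rw [hΘ0]
    exact h0fin'.union h3fin
  have h0G : ∀ z ∈ Θ0, z ∈ fixedField G := by
    intro z hz
    rw [hΘ0] at hz
    exact hz.elim (h0G' z) (h3G z)
  obtain ⟨Θ2, Cst, hΘ2, halgs⟩ := alg_hgt (K' := K') hgeny hy0'
    (fun m => algebraMap L K' (x m))
  -- the coefficients
  obtain ⟨c0, hc0⟩ : ∃ c0 : M → L, ∀ ϑ ∈ Θ0, algebraMap L K' (c0 ϑ) = algebraMap M K' ϑ := by
    refine ⟨fun ϑ => if hϑ : ϑ ∈ fixedField G then algebraMap (fixedField G) L ⟨ϑ, hϑ⟩ else 0,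
      fun ϑ hϑ => ?_⟩
    beta_reduce
    rw [dif_pos (h0G ϑ hϑ)]
    exact hcomp _
  obtain ⟨H1, hH1, hH1G⟩ := Pool.Agent.TH466.QG.exists_den hgenx (h0fin.image c0)
  obtain ⟨H, hH, hspread⟩ := spread (K' := K') hgenx
    (Θ := algebraMap M K' '' (Θ0 ∪ (Θ1 ∪ Θ2))) ((h0fin.union (h1fin.union hΘ2)).image _)
  refine ⟨H * H1, ?_, m * (Cst * ((r + 1) * A)), ?_⟩
  · rw [map_mul]
    exact mul_ne_zero hH hH1
  intro E _ _ _ Sg z hsp hreg hzHH
  rw [map_mul] at hzHH
  have hzH := left_ne_zero_of_mul hzHH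
  have hzH1 := right_ne_zero_of_mul hzHH
  obtain ⟨K'', i1', i2', i3', i4', i5', hrk, S0, hSx0, hSΘ0⟩ := hspread E z hsp hzH
  obtain ⟨N, iN, ikN, hff, φ, Γ, hΓ, θ, hθ, hcan, hgtE, hrk0⟩ :=
    exists_galois' (k := k) (E := E) (K'' := K'')
  have hfdN : FiniteDimensional (fixedField Γ) N := fixed_finite Γ
  have hFFE : IsFF k (fixedField Γ) := isFF_down (E := N)
  obtain ⟨S, hS⟩ : ∃ S : Sp k K' N, S = mapSp S0 φ := ⟨_, rfl⟩
  have hSx : ∀ i, S.T (algebraMap L K' (x i)) (φ (algebraMap E K'' (z i))) := by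
    intro i
    rw [hS]
    exact ⟨_, hSx0 i, rfl⟩
  have hSΘ : ∀ ϑ ∈ Θ0 ∪ (Θ1 ∪ Θ2), ∃ t, S.T (algebraMap M K' ϑ) t := by
    intro ϑ hϑ
    obtain ⟨t, ht⟩ := hSΘ0 _ ⟨ϑ, hϑ, rfl⟩
    rw [hS]
    exact ⟨_, t, ht, rfl⟩
  obtain ⟨SM, hSM⟩ : ∃ SM : Sp k M N, ∀ a b, SM.T a b ↔ S.T (algebraMap M K' a) b :=
    ⟨S.res (K0 := M), fun a b => Iff.rfl⟩
  -- the coefficients are in `E`
  have hS0 : ∀ ϑ ∈ Θ0, ∃ t ∈ fixedField Γ, SM.T ϑ t := by
    intro ϑ hϑ
    obtain ⟨t, ht⟩ := hSΘ ϑ (Or.inl hϑ)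
    refine ⟨t, ?_, (hSM _ _).2 ht⟩
    obtain ⟨G1, hG1⟩ := hH1G _ ⟨ϑ, hϑ, rfl⟩
    have hval : ∀ P : MvPolynomial (Fin m) k,
        S.T (algebraMap L K' (MvPolynomial.aeval x P))
          (φ (algebraMap E K'' (MvPolynomial.aeval z P))) := by
      intro P
      have h1 := Pool.Agent.K4H65.DM.sp_aeval S hSx P
      have h2 : MvPolynomial.aeval (fun i => algebraMap L K' (x i)) P =
          algebraMap L K' (MvPolynomial.aeval x P) :=
        MvPolynomial.aeval_algebraMap_apply K' x P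
      have h3 : MvPolynomial.aeval (fun i => φ (algebraMap E K'' (z i))) P =
          φ (algebraMap E K'' (MvPolynomial.aeval z P)) := by
        have h4 : MvPolynomial.aeval (fun i => algebraMap E K'' (z i)) P =
            algebraMap E K'' (MvPolynomial.aeval z P) :=
          MvPolynomial.aeval_algebraMap_apply K'' z P
        rw [← h4]
        exact (MvPolynomial.comp_aeval_apply (fun i => algebraMap E K'' (z i)) φ P).symm
      rw [h2, h3] at h1
      exact h1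
    have h1 := hval G1
    have h2 := S.mul ht (hval H1)
    rw [← hc0 ϑ hϑ, ← map_mul, hG1] at h2
    have h3 := S.ext h1 h2
    have h4 : t = φ (algebraMap E K'' (MvPolynomial.aeval z G1 / MvPolynomial.aeval z H1)) := by
      have h5 : φ (algebraMap E K'' (MvPolynomial.aeval z H1)) ≠ 0 :=
        (_root_.map_ne_zero φ).2 ((_root_.map_ne_zero _).2 hzH1)
      rw [map_div₀, map_div₀, h3, mul_div_cancel_right₀ _ h5]
    rw [h4, ← hθ]
    exact (θ _).2
  have hS1 : ∀ ϑ ∈ Θ1, ∃ t, SM.T ϑ t := fun ϑ hϑ => by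
    obtain ⟨t, ht⟩ := hSΘ ϑ (Or.inr (Or.inl hϑ))
    exact ⟨t, (hSM _ _).2 ht⟩
  -- the points at infinity
  obtain ⟨R, hR⟩ : ∃ R : Finset (Place k (fixedField Γ)), R = Sg.image (pullP θ.symm) := ⟨_, rfl⟩
  have hRcard : R.card ≤ Sg.card := by
    rw [hR]
    exact Finset.card_image_le
  have hSR : ∀ i, ∀ u ∈ Z0 i, ∃ t : fixedField Γ, SM.T ((u : ↥(C i ⊓ fixedField G)) : M) (t : N) ∧
      ∀ P ∉ R, P.Reg t := by
    intro i u hu
    have hu0 : ((u : ↥(C i ⊓ fixedField G)) : M) ∈ Θ0 := by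
      rw [hΘ0]
      exact Or.inr (h3mem i u hu)
    obtain ⟨t, htΓ, ht⟩ := hS0 _ hu0
    refine ⟨⟨t, htΓ⟩, ht, fun P hP => ?_⟩
    obtain ⟨e, Q, hQ⟩ := exists_place_over (E := N) P
    have hP' : pullP θ P ∉ Sg := by
      intro hcon
      apply hP
      rw [hR]
      exact Finset.mem_image.2 ⟨_, hcon, pullP_symm θ P⟩
    have hQreg : ∀ j, Q.Reg (φ (algebraMap E K'' (z j))) := by
      intro j
      rcases hreg _ hP' j with h1 | h1
      · left
        rw [h1, map_zero, map_zero]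
      · right
        rw [← hθ]
        have h2 := hQ.2 (θ (z j))
        change Q.ord ((θ (z j) : fixedField Γ) : N) = _ at h2
        rw [h2]
        rw [pullP_ord] at h1
        positivity
    have hi := hint i u (hZ02 i u hu)
    have hi' : IsIntegral (Algebra.adjoin k (Set.range fun j => algebraMap L K' (x j)))
        (algebraMap M K' ((u : ↥(C i ⊓ fixedField G)) : M)) := by
      have h1 : algebraMap M K' ((u : ↥(C i ⊓ fixedField G)) : M) =
          algebraMap L K' (algebraMap (fixedField G) L ⟨u, u.2.2⟩) := (hcomp ⟨u, u.2.2⟩).symm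
      rw [h1]
      have h2 : (Algebra.adjoin k (Set.range x)).map (IsScalarTower.toAlgHom k L K') =
          Algebra.adjoin k (Set.range fun j => algebraMap L K' (x j)) := by
        rw [AlgHom.map_adjoin, ← Set.range_comp]
        rfl
      rw [← h2]
      obtain ⟨p, hp, hev⟩ := hi
      let ψ : Algebra.adjoin k (Set.range x) →+*
          (Algebra.adjoin k (Set.range x)).map (IsScalarTower.toAlgHom k L K') :=
        ((IsScalarTower.toAlgHom k L K').domRestrict (Algebra.adjoin k (Set.range x))).toRingHom.codRestrict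
          _ (fun a => ⟨a, a.2, rfl⟩)
      refine ⟨p.map ψ, hp.map ψ, ?_⟩
      rw [Polynomial.eval₂_map]
      have h3 := congrArg (algebraMap L K') hev
      rw [Polynomial.hom_eval₂, map_zero] at h3
      rw [← h3]
      rfl
    have h1 := sp_integral S (x := fun j => algebraMap L K' (x j)) hSx hi' ((hSM _ _).1 ht) Q hQreg
    rcases h1 with h1 | h1
    · left
      exact Subtype.ext h1
    · right
      have h2 := hQ.2 (⟨t, htΓ⟩ : fixedField Γ)
      change Q.ord t = _ at h2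
      rw [h2] at h1
      have h3 : (1 : ℤ) ≤ e := by exact_mod_cast hQ.1
      by_contra hcon
      push Not at hcon
      nlinarith
  have hhgt := hcurve N Γ SM R (fun ϑ hϑ => hS0 ϑ (by rw [hΘ0]; exact Or.inl hϑ)) hS1 hSR
  rw [hcan] at hhgt
  obtain ⟨χ, hχ⟩ : ∃ χ : ℤ, χ = max (canDeg k E + Sg.card) 0 := ⟨_, rfl⟩
  have hχ0 : 0 ≤ χ := by rw [hχ]; exact le_max_right _ _
  have hχR : max (canDeg k E + (R.card : ℤ)) 0 ≤ χ := by
    rw [hχ]
    have : (R.card : ℤ) ≤ Sg.card := by exact_mod_cast hRcard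
    exact max_le_max (by omega) le_rfl
  rw [← hχ]
  obtain ⟨ρ, hρ⟩ : ∃ ρ : ℤ, ρ = Module.finrank (fixedField Γ) N := ⟨_, rfl⟩
  have hρ0 : 0 < ρ := by rw [hρ]; exact_mod_cast hrk0
  rw [← hρ] at hhgt hgtE
  have hhgt' : ∀ i, ∀ y ∈ Y i, ∀ y', SM.T (y : M) y' → hgt k y' ≤ A * (ρ * χ) := by
    intro i y hy y' hyy'
    refine (hhgt i y hy y' hyy').trans ?_
    exact mul_le_mul_of_nonneg_left (mul_le_mul_of_nonneg_left hχR hρ0.le) (by positivity)
  -- the specialization of the generic point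
  have hSy : ∀ j, ∃ t, SM.T (y j) t := by
    intro j
    refine Fin.cases ?_ (fun j => ?_) j
    · rw [hy0]
      exact ⟨1, SM.one⟩
    · rw [hyS]
      obtain ⟨i, u, hu, hu'⟩ := hyy1 j
      rw [← hu']
      exact hS1 _ (hY1 i u hu)
  choose y' hy' using hSy
  have hy'0 : y' 0 = 1 := SM.ext (by rw [← hy0]; exact hy' 0) SM.one
  have hb : ∀ j, hgt k (y' j / y' 0) ≤ A * (ρ * χ) := by
    intro j
    rw [hy'0, div_one]
    refine Fin.cases ?_ (fun j => ?_) j
    · rw [hy'0, hgt_one]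
      positivity
    · obtain ⟨i, u, hu, hu'⟩ := hyy1 j
      refine hhgt' i u hu _ ?_
      rw [hu', ← hyS]
      exact hy' _
  have hpy : pht k y' ≤ (r + 1) * (A * (ρ * χ)) := by
    refine (pht_le y' (l := 0) (by rw [hy'0]; exact one_ne_zero)).trans ?_
    refine (Finset.sum_le_sum fun j _ => hb j).trans (le_of_eq ?_)
    rw [Finset.sum_const, nsmul_eq_mul, Finset.card_univ, Fintype.card_fin]
    push_cast
    ring
  have h2 : ∀ m', hgt k (φ (algebraMap E K'' (z m'))) ≤ Cst * pht k y' := fun m' =>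
    halgs N S (fun ϑ hϑ => hSΘ _ (Or.inr (Or.inr hϑ))) y' (fun j => (hSM _ _).1 (hy' j)) _ hSx m'
  have h3 : ∀ m', hgt k (z m') ≤ Cst * ((r + 1) * (A * χ)) := by
    intro m'
    have h4 := h2 m'
    rw [hgtE] at h4
    have h5 : (Cst : ℤ) * pht k y' ≤ Cst * ((r + 1) * (A * (ρ * χ))) :=
      mul_le_mul_of_nonneg_left hpy (Nat.cast_nonneg _)
    have h6 : ρ * hgt k (z m') ≤ ρ * (Cst * ((r + 1) * (A * χ))) := by
      refine (h4.trans h5).trans (le_of_eq ?_)
      ring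
    exact le_of_mul_le_mul_left h6 hρ0
  refine (pht_cons_le z).trans ((Finset.sum_le_sum fun j _ => h3 j).trans (le_of_eq ?_))
  rw [Finset.sum_const, nsmul_eq_mul, Finset.card_univ, Fintype.card_fin]
  push_cast
  ring

end

end Pool.Agent.K4H25.LG
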