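import Pool.Agent.K4H25.LG.L4
import Pool.Agent.W602.GT.Loc

/-!
Logarithmic pluricanonical forms on varieties with maps to curves.
-/

set_option autoImplicit false
set_option linter.overlappingInstances false
set_option linter.unusedSectionVars false
set_option linter.unusedVariables false
set_option linter.unusedSimpArgs false
set_option maxHeartbeats 4000000
set_option synthInstance.maxHeartbeats 400000

open FF IntermediateField Pool.Agent.W619.PQ Pool.Agent.W619.PL
  Pool.Agent.W619.TW Pool.Agent.W603.LV Pool.Agent.K4H25.GQ Pool.Agent.K4H25.GW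
  Pool.Agent.K4H25.HY Pool.Agent.W619.X Pool.Agent.W619.Y

namespace Pool.Agent.K4H25.LG

open Pool.Agent.W602.GT (Divisorial DerReg DerLog LogGeneralType det_log)

section

variable {k : Type} [Field k] [CharZero k] [IsAlgClosed k] {L : Type} [Field L] [Algebra k L]

/-- The form on a curve at a place. -/
theorem fib_loc {E : Type} [Field E] [Algebra k E] [IsFF k E] (φ : E →ₐ[k] L) {m : ℕ}
    (δ : Place k E → ℚ) (D0 : Derivation k E E) (c x : E)
    (hD0 : D0 ≠ 0) (hc : c ≠ 0) (hx : Transcendental k x)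
    (hg : GoodX (fun _ => False) (fun q => 1 - δ q) m D0 c) (w : Place k L) :
    ∃ (u r : L) (N : ℤ), u ≠ 0 ∧ w.Reg u ∧ (∀ D : Derivation k L L, D (φ x) = r * D u) ∧
      Ge w N (φ (c / (D0 x) ^ m) * (r * u) ^ m) ∧
      (((∀ z, w.ord (φ z) = 0) ∧ w.ord u = 0 ∧ N = 0) ∨
        ∃ (p : Place k E) (e : ℕ), OverH φ w p e ∧ (m : ℚ) * (e * (1 - δ p)) ≤ N) := by
  classical
  let _ : Algebra E L := φ.toRingHom.toAlgebra
  have t1 : IsScalarTower k E L := IsScalarTower.of_algebraMap_eq fun c => (φ.commutes c).symm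
  have hφ : ∀ z, algebraMap E L z = φ z := fun z => rfl
  have hx0 : x ≠ 0 := by
    intro h0
    rw [h0] at hx
    exact hx (isAlgebraic_zero)
  have hDx : D0 x ≠ 0 := der_ne_zero hD0 hx
  by_cases htriv : ∀ f : E, w.ord (algebraMap E L f) = 0
  · refine ⟨φ x, 1, 0, (_root_.map_ne_zero φ).2 hx0, Or.inr (htriv x).ge,
      fun D => (one_mul _).symm, ?_, Or.inl ⟨htriv, htriv x, rfl⟩⟩
    have h2 : φ (c / (D0 x) ^ m) * (1 * φ x) ^ m = φ (c / (D0 x) ^ m * x ^ m) := by
      rw [one_mul, map_mul, map_pow]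
    rw [h2]
    exact Or.inr (htriv _).ge
  push Not at htriv
  obtain ⟨f0, hf0⟩ := htriv
  obtain ⟨e, p, hp⟩ := exists_over (K := E) w ⟨f0, hf0⟩
  obtain ⟨u, hu0, hpu⟩ := p.surj
  have hut : Transcendental k u := trans_of_ord p (by omega)
  obtain ⟨r, hr1, hr2⟩ := ratio' (K := L) hut x
  have hDu : D0 u ≠ 0 := der_ne_zero hD0 hut
  have hxr : D0 x = r * D0 u := hr1 D0
  have hr0 : r ≠ 0 := by
    intro h
    rw [h, zero_mul] at hxr
    exact hDx hxr
  have hval : φ (c / (D0 x) ^ m) * (φ r * φ u) ^ m = φ (c * (u / D0 u) ^ m) := by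
    have h3 : c / (D0 x) ^ m * (r * u) ^ m = c * (u / D0 u) ^ m := by
      rw [hxr, div_mul_eq_mul_div, mul_div_assoc, ← div_pow]
      congr 2
      field_simp
    rw [← h3, map_mul, map_pow, map_mul]
  have hord : p.ord (c * (u / D0 u) ^ m) = p.ord c + m * (1 - vo p D0) := by
    rw [p.ord_mul hc (pow_ne_zero _ (div_ne_zero hu0 hDu)), p.ord_pow, p.ord_div hu0 hDu, hpu,
      vo_eq p hpu hD0]
  obtain ⟨h5, h6⟩ := hg p
  have h7 := h6 not_false
  rw [← hord] at h7 h5
  have hwu : w.ord (φ u) = (e : ℕ) := by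
    have h8 := hp.2 u
    rw [hpu, mul_one] at h8
    exact h8
  refine ⟨φ u, φ r, (e : ℕ) * p.ord (c * (u / D0 u) ^ m),
    (_root_.map_ne_zero φ).2 hu0, Or.inr (by rw [hwu]; positivity), fun D => hr2 D, ?_, ?_⟩
  · rw [hval]
    exact Or.inr (hp.2 _).ge
  · refine Or.inr ⟨p, e, ⟨hp.1, hp.2⟩, ?_⟩
    push_cast
    have h8 : (0 : ℚ) ≤ e := by positivity
    have h9 := mul_le_mul_of_nonneg_left h7 h8
    push_cast at h9
    refine le_trans (le_of_eq ?_) h9
    ring

/-- **Logarithmic general type.** -/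
theorem log_general {n : ℕ} {E : Fin n → Type} [∀ i, Field (E i)] [∀ i, Algebra k (E i)]
    [∀ i, IsFF k (E i)] (φ : ∀ i, E i →ₐ[k] L) (htr : Algebra.trdeg k L = n)
    (hind : ∀ x : ∀ i, E i, (∀ i, Transcendental k (x i)) →
      AlgebraicIndependent k (fun i => φ i (x i)))
    (ε : ∀ i, Place k (E i) → ℚ) (hε : ∀ i p, 0 ≤ ε i p ∧ ε i p ≤ 1)
    (T0 : ∀ i, Finset (Place k (E i))) (hT0 : ∀ i, ∀ q ∉ T0 i, ε i q = 0)
    (hdeg : ∀ i, (0 : ℚ) < canDeg k (E i) + ∑ q ∈ T0 i, ε i q) (Bd : Place k L → Prop)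
    (hloc : ∀ w : Place k L, ¬ Bd w → (∀ i z, w.ord (φ i z) = 0) ∨
      ∃ i p e, OverH (φ i) w p e ∧ (1 : ℚ) ≤ e * (1 - ε i p)) :
    LogGeneralType k L n Bd := by
  classical
  choose m D0 c1 c1' hm hD0 hc1 hc1' hg1 hg1' htr1 using fun i =>
    two_goodX (k := k) (E0 := E i) (fun _ => False) (ε i) (T0 i) (hT0 i) (hε i) (hdeg i)
  have hx0 : ∀ i, ∃ x : E i, Transcendental k x := fun i =>
    IsFF.exists_transcendental (k := k) (K := E i)
  choose x hx using hx0
  have hDx : ∀ i, D0 i (x i) ≠ 0 := fun i => der_ne_zero (hD0 i) (hx i)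
  obtain ⟨N, hNdef⟩ : ∃ N, N = ∏ i, m i := ⟨_, rfl⟩
  have hN : 1 ≤ N := by
    rw [hNdef]
    exact Nat.pos_of_ne_zero (Finset.prod_ne_zero_iff.2 fun i _ => by
      have := hm i
      omega)
  have hn1 : ∀ i, ∃ ν : ℕ, 1 ≤ ν ∧ ν * m i = N := by
    intro i
    refine ⟨∏ j ∈ Finset.univ.erase i, m j, Nat.pos_of_ne_zero
      (Finset.prod_ne_zero_iff.2 fun i _ => by
        have := hm i
        omega), ?_⟩
    rw [hNdef, mul_comm]
    exact Finset.mul_prod_erase Finset.univ m (Finset.mem_univ i)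
  choose ν hν hνm using hn1
  obtain ⟨c, hc⟩ : ∃ c : ∀ i, E i, c = fun i => c1 i ^ ν i := ⟨_, rfl⟩
  obtain ⟨c', hc'⟩ : ∃ c' : ∀ i, E i, c' = fun i => c1' i ^ ν i := ⟨_, rfl⟩
  have hcne : ∀ i, c i ≠ 0 := fun i => by
    rw [hc]
    exact pow_ne_zero _ (hc1 i)
  have hcne' : ∀ i, c' i ≠ 0 := fun i => by
    rw [hc']
    exact pow_ne_zero _ (hc1' i)
  have hgc : ∀ i, GoodX (fun _ => False) (fun q => 1 - ε i q) N (D0 i) (c i) := by
    intro i
    have := (hg1 i).pow (ν i)
    rw [hνm i] at this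
    rw [hc]
    exact this
  have hgc' : ∀ i, GoodX (fun _ => False) (fun q => 1 - ε i q) N (D0 i) (c' i) := by
    intro i
    have := (hg1' i).pow (ν i)
    rw [hνm i] at this
    rw [hc']
    exact this
  have htr' : ∀ i, Transcendental k (c' i / c i) := by
    intro i
    rw [hc, hc']
    beta_reduce
    rw [← div_pow]
    exact (htr1 i).pow (by have := hν i; omega)
  obtain ⟨cc, hcc⟩ : ∃ cc : Fin (n + 1) → ∀ i, E i,
      cc = Fin.cons (α := fun _ => ∀ i, E i) c (fun b : Fin n => Function.update c b (c' b)) :=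
    ⟨_, rfl⟩
  have hall : ∀ P : ∀ i, E i → Prop, (∀ i, P i (c i)) → (∀ i, P i (c' i)) →
      ∀ l i, P i (cc l i) := by
    intro P h1 h2 l i
    rw [hcc]
    refine Fin.cases ?_ (fun b => ?_) l
    · exact h1 i
    · rw [Fin.cons_succ]
      by_cases hi : i = b
      · subst hi
        rw [Function.update_self]
        exact h2 _
      · rw [Function.update_of_ne hi]
        exact h1 i
  have hccne := hall (fun i z => z ≠ 0) hcne hcne'
  have hccg := hall (fun i z => GoodX (fun _ => False) (fun q => 1 - ε i q) N (D0 i) z) hgc hgc'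
  -- the forms
  obtain ⟨Ω, hΩ⟩ : ∃ Ω : Fin (n + 1) → (Fin n → Derivation k L L) → L, Ω = fun l D =>
      (∏ i, φ i (cc l i / (D0 i (x i)) ^ N)) *
        (Matrix.of fun i j => D i (φ j (x j))).det ^ N := ⟨_, rfl⟩
  have hbasis : IsTranscendenceBasis k (fun i => φ i (x i)) :=
    (hind x hx).isTranscendenceBasis_of_trdeg_le_of_finite (by
      rw [htr, Cardinal.mk_fintype, Fintype.card_fin])
  obtain ⟨EL, hEL⟩ := Pool.Agent.W636.PG.exists_duals k L n _ hbasis
  have hdet : (Matrix.of fun i j => EL i (φ j (x j))).det = 1 := by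
    have h1 : (Matrix.of fun i j => EL i (φ j (x j))) = 1 := by
      ext a b
      rw [Matrix.of_apply, Matrix.one_apply]
      exact hEL a b
    rw [h1, Matrix.det_one]
  have hval : ∀ l, Ω l EL = ∏ i, φ i (cc l i / (D0 i (x i)) ^ N) := by
    intro l
    rw [hΩ]
    beta_reduce
    rw [hdet, one_pow, mul_one]
  have hfne : ∀ l i, φ i (cc l i / (D0 i (x i)) ^ N) ≠ 0 := fun l i =>
    (_root_.map_ne_zero (φ i)).2 (div_ne_zero (hccne l i) (pow_ne_zero _ (hDx i)))
  have hest : ∀ (w : Place k L) (l : Fin (n + 1)) (D : Fin n → Derivation k L L),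
      ∃ (Q : L) (s : ℤ) (u : Fin n → L), (∀ i, u i ≠ 0) ∧
        Q = (Matrix.of fun j i => D j (u i) / u i).det ∧ 0 ≤ s ∧
        (¬ Bd w → (∀ i, w.ord (u i) = 0) ∨ (N : ℤ) ≤ s) ∧
        ∀ a : ℤ, Ge w a Q → Ge w (s + N * a) (Ω l D) := by
    intro w l D
    choose u r K hu0 hur hrx hKge hK using fun i =>
      fib_loc (φ i) (ε i) (D0 i) (cc l i) (x i) (hD0 i) (hccne l i) (hx i) (hccg l i) w
    have hK0 : ∀ i, 0 ≤ K i := by
      intro i
      rcases hK i with ⟨-, -, h1⟩ | ⟨p, e, -, h1⟩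
      · exact h1.ge
      · have h2 : (0 : ℚ) ≤ (N : ℚ) * (e * (1 - ε i p)) := by
          have h3 : 0 ≤ 1 - ε i p := sub_nonneg.2 (hε i p).2
          positivity
        exact_mod_cast h2.trans h1
    refine ⟨_, ∑ i, K i, u, hu0, rfl, Finset.sum_nonneg fun i _ => hK0 i, fun hB => ?_,
      fun a ha => ?_⟩
    · rcases hloc w hB with h0 | ⟨i, p, e, hpe, h1⟩
      · left
        intro i
        rcases hK i with ⟨-, h3, -⟩ | ⟨p', e', hpe', -⟩
        · exact h3
        · exfalso
          obtain ⟨t, ht0, ht⟩ := p'.surj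
          have h4 := hpe'.2 t
          rw [ht, mul_one, h0] at h4
          have := hpe'.1
          omega
      right
      have h2 : (N : ℤ) ≤ K i := by
        rcases hK i with ⟨h3, -, -⟩ | ⟨p', e', hpe', h3⟩
        · exfalso
          obtain ⟨t, ht0, ht⟩ := p.surj
          have h4 := hpe.2 t
          rw [ht, mul_one, h3] at h4
          have := hpe.1
          omega
        · obtain ⟨h4, h5⟩ := ord_uniq (p := p') (q := p) hpe'.1 hpe.1 fun f => by
            rw [← hpe'.2, ← hpe.2]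
          rw [h4, h5] at h3
          have h6 : (N : ℚ) * 1 ≤ N * (e * (1 - ε i p)) := mul_le_mul_of_nonneg_left h1 (by positivity)
          rw [mul_one] at h6
          exact_mod_cast h6.trans h3
      exact h2.trans (Finset.single_le_sum (f := fun i => K i) (fun i _ => hK0 i)
        (Finset.mem_univ i))
    · have hT : ∀ (D : Derivation k L L) i, D (φ i (x i)) =
          ∑ i', (Matrix.diagonal r : Matrix (Fin n) (Fin n) L) i i' * D (u i') := by
        intro D i
        rw [Finset.sum_eq_single i]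
        · rw [Matrix.diagonal_apply_eq]
          exact hrx i D
        · intro b _ hb
          rw [Matrix.diagonal_apply_ne _ (Ne.symm hb), zero_mul]
        · intro h
          exact absurd (Finset.mem_univ i) h
      have h1 : Ω l D = (∏ i, (φ i (cc l i / (D0 i (x i)) ^ N) * (r i * u i) ^ N)) *
          (Matrix.of fun j i => D j (u i) / u i).det ^ N := by
        rw [hΩ]
        beta_reduce
        rw [det_factor D (fun i => φ i (x i)) u (Matrix.diagonal r) hT, Matrix.det_diagonal,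
          det_dlog D u hu0, Finset.prod_mul_distrib, Finset.prod_pow, Finset.prod_mul_distrib]
        ring
      rw [h1]
      exact (Ge.prod _ _ _ fun i _ => hKge i).mul (ha.pow N)
  refine ⟨htr, N, hN, Ω, fun l => ?_, fun w _ l D hD => ?_, fun w _ hB l D hD => ?_, EL, ?_, ?_⟩
  · rw [hΩ]
    exact Pool.Agent.K4H25.GQ.pluri_det _ _ _
  · obtain ⟨Q, s, u, hu0, hQ, hs0, -, hge⟩ := hest w l D
    have h1 : Ge w 0 Q := by
      rw [hQ]
      exact ge_det w _ fun i j => hD i (u j)
    have h2 := hge 0 h1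
    exact h2.mono (by simpa using hs0)
  · obtain ⟨Q, s, u, hu0, hQ, hs0, hsN, hge⟩ := hest w l D
    rcases hsN hB with h0 | h3
    · have h1 : Ge w 0 Q := by
        rw [hQ]
        exact ge_det w _ fun i j => Pool.Agent.W602.GT.ge_logder_reg (hD i) (hu0 j) (h0 j)
      have h2 := hge 0 h1
      exact h2.mono (by simpa using hs0)
    have h1 : Ge w (-1) Q := by
      rw [hQ]
      exact det_log D hD u hu0
    have h2 := hge (-1) h1
    exact h2.mono (by linarith)
  · rw [hval]
    exact Finset.prod_ne_zero_iff.2 fun i _ => hfne 0 i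
  · have h1 : (fun b : Fin n => Ω b.succ EL / Ω 0 EL) = fun b : Fin n => φ b (c' b / c b) := by
      funext b
      rw [hval, hval, ← Finset.prod_div_distrib]
      rw [← Finset.mul_prod_erase Finset.univ _ (Finset.mem_univ b)]
      have h2 : ∏ i ∈ Finset.univ.erase b, φ i (cc b.succ i / (D0 i (x i)) ^ N) /
          φ i (cc 0 i / (D0 i (x i)) ^ N) = 1 := by
        refine Finset.prod_eq_one fun i hi => ?_
        have h3 : cc b.succ i = cc 0 i := by
          rw [hcc, Fin.cons_succ, Fin.cons_zero,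
            Function.update_of_ne (Finset.ne_of_mem_erase hi)]
        rw [h3]
        exact div_self (hfne 0 i)
      rw [h2, mul_one, ← map_div₀]
      have h3 : cc b.succ b = c' b := by
        rw [hcc, Fin.cons_succ, Function.update_self]
      have h4 : cc 0 b = c b := by
        rw [hcc, Fin.cons_zero]
      rw [h3, h4, div_div_div_cancel_right₀ (pow_ne_zero _ (hDx b))]
    rw [h1]
    exact hind _ htr'

end

end Pool.Agent.K4H25.LG
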