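import Pool.Agent.K4H25.LG.L5

/-!
The criterion at the places of the quotient.
-/

set_option autoImplicit false
set_option linter.overlappingInstances false
set_option linter.unusedSectionVars false
set_option linter.unusedVariables false
set_option linter.unusedSimpArgs false
set_option maxHeartbeats 4000000
set_option synthInstance.maxHeartbeats 400000

open FF IntermediateField Pool.Agent.W619.PQ Pool.Agent.W619.PL
  Pool.Agent.W619.TW Pool.Agent.W603.LV Pool.Agent.K4H25.GQ Pool.Agent.K4H25.GW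
  Pool.Agent.K4H25.HY Pool.Agent.W619.X Pool.Agent.W619.Y

namespace Pool.Agent.K4H25.LG

open Pool.Agent.W602.GT (Divisorial DerReg DerLog LogGeneralType)

section

variable {k : Type} [Field k] [CharZero k] [IsAlgClosed k] {M : Type} [Field M] [Algebra k M]
  {n : ℕ}

/-- **The criterion at a place of the quotient.** -/
theorem place_crit (C : Fin n → IntermediateField k M) [hC : ∀ i, IsFF k (C i)]
    (G : Subgroup (M ≃ₐ[k] M)) [Finite G]
    (hst : ∀ g ∈ G, ∀ i, ∀ z ∈ C i, g z ∈ C i)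
    {α : Fin n → ℚ} (hα : ∀ i, 0 < α i)
    {B : ∀ i, Finset (Place k ↥(C i ⊓ fixedField G))}
    {δ : ∀ i, Place k ↥(C i ⊓ fixedField G) → ℚ} (h : LAge C G B α δ)
    (T0 : ∀ i, Finset (Place k ↥(C i ⊓ fixedField G))) (hT0 : ∀ i, ∀ q ∉ T0 i, δ i q = 0)
    (v : Place k (fixedField G))
    (hB : ∀ i p e, OverH (inclusion (inf_le_right : C i ⊓ fixedField G ≤ fixedField G)) v p e →
      p ∉ B i) :
    (∀ i (z : ↥(C i ⊓ fixedField G)),
      v.ord (inclusion (inf_le_right : C i ⊓ fixedField G ≤ fixedField G) z) = 0) ∨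
    ∃ i p e, OverH (inclusion (inf_le_right : C i ⊓ fixedField G ≤ fixedField G)) v p e ∧
      (1 : ℚ) ≤ e * (1 - max (δ i p) 0) := by
  classical
  have hFFB : ∀ i, IsFF k ↥(C i ⊓ fixedField G) := fun i => isFF_quo (C i) G
    (fun g hg => hst g hg i)
  obtain ⟨w, e, I0, hw, -, -⟩ := exists_inertia G v
  obtain ⟨J, hJ⟩ : ∃ J : Finset (Fin n), ∀ i, i ∈ J ↔ ∃ z ∈ C i, w.ord z ≠ 0 :=
    ⟨Finset.univ.filter fun i => ∃ z ∈ C i, w.ord z ≠ 0, fun i => by simp⟩
  have hJ' : ∀ i ∉ J, ∀ z ∈ C i, w.ord z = 0 := by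
    intro i hi z hz
    by_contra hcon
    exact hi ((hJ i).2 ⟨z, hz, hcon⟩)
  have hwv : ∀ i (z : ↥(C i ⊓ fixedField G)), w.ord (z : M) =
      e * v.ord (inclusion (inf_le_right : C i ⊓ fixedField G ≤ fixedField G) z) := fun i z =>
    hw.2 (inclusion (inf_le_right : C i ⊓ fixedField G ≤ fixedField G) z)
  have he0 : (0 : ℤ) < e := by exact_mod_cast hw.1
  rcases J.eq_empty_or_nonempty with hJe | hJne
  · left
    intro i z
    have h1 := hwv i z
    rw [hJ' i (by rw [hJe]; exact Finset.notMem_empty i) z z.2.1] at h1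
    have h2 := (mul_eq_zero.1 h1.symm).resolve_left (by omega)
    exact h2
  right
  have hex : ∀ i : J, ∃ (f : ℕ) (ww : Place k (C i)), OverH (C i).val w ww f := by
    intro i
    obtain ⟨z, hz, hz0⟩ := (hJ i).1 i.2
    obtain ⟨f, ww, hww⟩ := exists_over (K := C i) w ⟨⟨z, hz⟩, hz0⟩
    exact ⟨f, ww, hww.1, hww.2⟩
  choose f ww hf using hex
  choose r p hp using fun i : J => exists_overH
    (inclusion (inf_le_left : C i ⊓ fixedField G ≤ C i)) (ww i)
  have hfr : ∀ (i : J) (z : ↥(C i ⊓ fixedField G)), (f i * r i : ℕ) * (p i).ord z =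
      e * v.ord (inclusion (inf_le_right : C i ⊓ fixedField G ≤ fixedField G) z) := by
    intro i z
    rw [← hwv]
    have h1 := (hf i).2 (inclusion (inf_le_left : C i ⊓ fixedField G ≤ C i) z)
    change w.ord (z : M) = _ at h1
    rw [h1, (hp i).2]
    push_cast
    ring
  have hκ : ∀ i : J, ∃ κ : ℕ,
      OverH (inclusion (inf_le_right : C i ⊓ fixedField G ≤ fixedField G)) v (p i) κ ∧
        f i * r i = e * κ := by
    intro i
    let _ : Algebra ↥(C i ⊓ fixedField G) (fixedField G) :=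
      (inclusion (inf_le_right : C i ⊓ fixedField G ≤ fixedField G)).toRingHom.toAlgebra
    have t1 : IsScalarTower k ↥(C i ⊓ fixedField G) (fixedField G) :=
      IsScalarTower.of_algebraMap_eq fun c => rfl
    obtain ⟨t, ht0, ht⟩ := (p i).surj
    obtain ⟨κ, q, hq⟩ := exists_over (K := ↥(C i ⊓ fixedField G)) v ⟨t, by
      intro h0
      change v.ord (inclusion (inf_le_right : C i ⊓ fixedField G ≤ fixedField G) t) = 0 at h0
      have h1 := hfr i t
      rw [h0, ht, mul_one, mul_zero] at h1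
      have h2 := Nat.mul_pos (hf i).1 (hp i).1
      omega⟩
    have hq2 : ∀ z, v.ord (inclusion (inf_le_right : C i ⊓ fixedField G ≤ fixedField G) z) =
        κ * q.ord z := hq.2
    obtain ⟨h1, h2⟩ := ord_uniq (p := p i) (q := q) (a := f i * r i) (b := e * κ)
      (Nat.mul_pos (hf i).1 (hp i).1) (Nat.mul_pos hw.1 hq.1) (fun z => by
        rw [hfr i z, hq2]
        push_cast
        ring)
    refine ⟨κ, ⟨hq.1, fun z => ?_⟩, h1⟩
    rw [h2]
    exact hq2 z
  choose κ hκ1 hκ2 using hκ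
  have hgen := gen_places (δ := δ) B hst T0 hT0
  have h1 := local_ineq G h hgen J (fun i => (C i).val) hst hw (fun σ hσ hin =>
    ⟨σ, hσ, fun i hi => inert_triv hin (fun z hz => hst σ hσ i z hz) (hJ' i hi),
      fun i z z' hz' => hz', dvd_rfl⟩) ww f hf p r hp (fun i => hB i _ _ (hκ1 i))
  have h2 : ∑ i : J, α i * ((r i : ℚ) * (1 - δ i (p i)) * f i) =
      e * ∑ i : J, α i * ((κ i : ℚ) * (1 - δ i (p i))) := by
    rw [Finset.mul_sum]
    refine Finset.sum_congr rfl fun i _ => ?_
    have h3 : (f i : ℚ) * r i = e * κ i := by exact_mod_cast hκ2 i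
    linear_combination α i * (1 - δ i (p i)) * h3
  rw [h2] at h1
  have he : (0 : ℚ) < e := by exact_mod_cast hw.1
  have h3 : ∑ i : J, α i ≤ ∑ i : J, α i * ((κ i : ℚ) * (1 - δ i (p i))) := by
    rw [Finset.sum_coe_sort J (fun i : Fin n => α i)]
    by_contra hcon
    push Not at hcon
    nlinarith
  have h4 : ∃ i : J, (1 : ℚ) ≤ κ i * (1 - δ i (p i)) := by
    by_contra hcon
    push Not at hcon
    have hne : (Finset.univ : Finset J).Nonempty := by
      obtain ⟨i, hi⟩ := hJne
      exact ⟨⟨i, hi⟩, Finset.mem_univ _⟩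
    refine absurd h3 (not_le.2 (Finset.sum_lt_sum_of_nonempty hne fun i _ => ?_))
    have h5 := mul_lt_mul_of_pos_left (hcon i) (hα i)
    rwa [mul_one] at h5
  obtain ⟨i, hi⟩ := h4
  refine ⟨i, p i, κ i, hκ1 i, ?_⟩
  rcases le_total (δ i (p i)) 0 with h0 | h0
  · rw [max_eq_right h0, sub_zero, mul_one]
    exact_mod_cast (hκ1 i).1
  · rw [max_eq_left h0]
    exact hi

/-- **Logarithmic general type.** -/
theorem log_general_quo (C : Fin n → IntermediateField k M) [hC : ∀ i, IsFF k (C i)]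
    (hn : Algebra.trdeg k M = n)
    (hsup : ⨆ i, C i = ⊤) (G : Subgroup (M ≃ₐ[k] M)) [Finite G]
    (hst : ∀ g ∈ G, ∀ i, ∀ z ∈ C i, g z ∈ C i)
    {α : Fin n → ℚ} (hα : ∀ i, 0 < α i)
    {B : ∀ i, Finset (Place k ↥(C i ⊓ fixedField G))}
    {δ : ∀ i, Place k ↥(C i ⊓ fixedField G) → ℚ} (hδ : ∀ i p, δ i p ≤ 1) (h : LAge C G B α δ)
    (T0 : ∀ i, Finset (Place k ↥(C i ⊓ fixedField G))) (hT0 : ∀ i, ∀ q ∉ T0 i, δ i q = 0)
    (hdeg : ∀ i, (0 : ℚ) < canDeg k ↥(C i ⊓ fixedField G) + ∑ q ∈ T0 i, δ i q)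
    {L : Type} [Field L] [Algebra k L] [Algebra (fixedField G) L]
    [IsScalarTower k (fixedField G) L] [FiniteDimensional (fixedField G) L]
    (Bd : Place k L → Prop)
    (hBd : ∀ w : Place k L, ¬ Bd w → ∀ i, ∀ z : ↥(C i ⊓ fixedField G), (∀ p ∉ B i, p.Reg z) →
      w.Reg (algebraMap (fixedField G) L ⟨z, z.2.2⟩)) :
    LogGeneralType k L n Bd := by
  classical
  have hFFB : ∀ i, IsFF k ↥(C i ⊓ fixedField G) := fun i => isFF_quo (C i) G
    (fun g hg => hst g hg i)
  have halgG := Pool.Agent.W721.PG.EFF2.alg_fixed G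
  have hfinG : FiniteDimensional (fixedField G) M := fixed_finite G
  have htG : Algebra.trdeg k (fixedField G) = n :=
    (Pool.Agent.W721.PG.EFF2.exists_basis (fixedField G) n hn).1
  have htL : Algebra.trdeg k L = n := by
    rw [← trdeg_add_eq k (fixedField G) (A := L), htG]
    have h2 : Algebra.trdeg (fixedField G) L = 0 := trdeg_eq_zero
    rw [h2, add_zero]
  have halg : Algebra.IsAlgebraic ↥((⊥ : IntermediateField k M) ⊔ ⨆ i, C i) M := by
    rw [hsup, sup_top_eq]
    exact ⟨fun z => isAlgebraic_algebraMap (⟨z, trivial⟩ : (⊤ : IntermediateField k M))⟩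
  obtain ⟨φ, hφ⟩ : ∃ φ : ∀ i, ↥(C i ⊓ fixedField G) →ₐ[k] L, φ = fun i =>
      (IsScalarTower.toAlgHom k (fixedField G) L).comp
        (inclusion (inf_le_right : C i ⊓ fixedField G ≤ fixedField G)) := ⟨_, rfl⟩
  refine log_general φ htL ?_ (fun i p => max (δ i p) 0) (fun i p => ⟨le_max_right _ _,
    max_le (hδ i p) zero_le_one⟩) T0 (fun i q hq => by
      beta_reduce
      rw [hT0 i q hq, max_self]) (fun i => ?_) Bd ?_
  · intro x hx
    have ht0 : Algebra.trdeg k (⊥ : IntermediateField k M) = (0 : ℕ) := by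
      have h1 : Algebra.trdeg k (⊥ : IntermediateField k M) = 0 := by
        rw [trdeg_eq_zero_iff]
        infer_instance
      rw [h1, Nat.cast_zero]
    have h1 := Pool.Agent.W672.PG.indep_mix (n := n) (d := 0) (A := 0)
      (⊥ : IntermediateField k M) C halg (by rw [hn, Nat.zero_add]) ht0 Fin.elim0
      (by
        have : IsEmpty (Fin 0) := inferInstance
        exact algebraicIndependent_empty_type) (fun i => ⟨(x i : M), (x i).2.1⟩)
      (fun i => Pool.Agent.W303.PG.trans_sub (C i) (x i).2.1 (transcendental_map' (hx i)))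
    have h2 := h1.comp Sum.inr Sum.inr_injective
    have h3 : AlgebraicIndependent k (fun i =>
        inclusion (inf_le_right : C i ⊓ fixedField G ≤ fixedField G) (x i)) := by
      refine AlgebraicIndependent.of_comp (fixedField G).val ?_
      exact h2
    have h4 := h3.map' (f := IsScalarTower.toAlgHom k (fixedField G) L)
      (algebraMap (fixedField G) L).injective
    rw [hφ]
    exact h4
  · refine lt_of_lt_of_le (hdeg i) ?_
    have h1 : ∑ q ∈ T0 i, δ i q ≤ ∑ q ∈ T0 i, max (δ i q) 0 :=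
      Finset.sum_le_sum fun q _ => le_max_left _ _
    linarith
  · intro w hw
    obtain ⟨e, v, hv⟩ := Pool.Agent.W73.PG.PULL.exists_over' (K := fixedField G) w
    have hord : ∀ i z, w.ord (φ i z) = e * v.ord
        (inclusion (inf_le_right : C i ⊓ fixedField G ≤ fixedField G) z) := by
      intro i z
      rw [hφ]
      exact hv.2 _
    have he : (1 : ℤ) ≤ e := by exact_mod_cast hv.1
    rcases place_crit C G hst hα h T0 hT0 v (fun i p e' hp hpB => by
      obtain ⟨z, hz1, hz2⟩ := exists_pole_at p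
      have h1 := hBd w hw i z (fun q hq => hz2 q (by
        rintro rfl
        exact hq hpB))
      have h2 := hord i z
      rw [hp.2] at h2
      have h3 : φ i z ≠ 0 := by
        rw [_root_.map_ne_zero]
        rintro rfl
        rw [p.ord_zero] at hz1
        exact lt_irrefl _ hz1
      have h4 : w.Reg (φ i z) := by
        rw [hφ]
        exact h1
      have h5 := h4.resolve_left h3
      rw [h2] at h5
      have h6 : (1 : ℤ) ≤ e' := by exact_mod_cast hp.1
      have h7 : (e' : ℤ) * p.ord z < 0 := mul_neg_of_pos_of_neg (by omega) hz1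
      nlinarith) with h1 | ⟨i, p, e', h1, h2⟩
    · left
      intro i z
      rw [hord, h1 i z, mul_zero]
    · right
      refine ⟨i, p, e * e', ⟨Nat.mul_pos hv.1 h1.1, fun z => ?_⟩, ?_⟩
      · rw [hord, h1.2]
        push_cast
        ring
      · have h3 : (0 : ℚ) ≤ e' * (1 - max (δ i p) 0) := zero_le_one.trans h2
        have h4 : (1 : ℚ) ≤ e := by exact_mod_cast hv.1
        push_cast
        rw [mul_assoc]
        nlinarith

end

end Pool.Agent.K4H25.LG
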